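import Mathlib

/-!
# Uniform categoricity relative to a Turing degree: definitions

Structures are directed graphs (one binary relation symbol) whose universe is a set of natural
numbers.
-/

set_option autoImplicit false

namespace Pool.Agent.Lib.MP_dc84f7_lc

/-- The standard numbering `φ_e` of the partial computable functions. -/
def phi (e : ℕ) : ℕ →. ℕ := (Denumerable.ofNat Nat.Partrec.Code e).eval

/-- A structure in the language with one binary relation symbol whose universe `dom` is a set of
natural numbers. -/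
structure Graph where
  dom : Set ℕ
  adj : ℕ → ℕ → Prop
  adj_dom : ∀ x y, adj x y → x ∈ dom ∧ y ∈ dom

open Classical in
/-- The atomic diagram of a structure `M`, as the characteristic function of the set of (codes of)
true atomic sentences: the sentence `x = y` has code `⟨0, ⟨x, y⟩⟩` and is true iff `x` and `y` are
the same element of the universe; the sentence `R(x, y)` has code `⟨1, ⟨x, y⟩⟩`. -/
noncomputable def Graph.diag (M : Graph) (n : ℕ) : ℕ :=
  if (n.unpair.1 = 0 ∧ n.unpair.2.unpair.1 ∈ M.dom ∧ n.unpair.2.unpair.1 = n.unpair.2.unpair.2) ∨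
    (n.unpair.1 = 1 ∧ M.adj n.unpair.2.unpair.1 n.unpair.2.unpair.2) then 1 else 0

/-- `f` (restricted to the universe of `A`) is an isomorphism from `A` to `B`. -/
def IsIso (A B : Graph) (f : ℕ → ℕ) : Prop :=
  Set.BijOn f A.dom B.dom ∧ ∀ x ∈ A.dom, ∀ y ∈ A.dom, (A.adj x y ↔ B.adj (f x) (f y))

/-- `φ_e` is the atomic diagram of `M`. -/
def IsIndex (e : ℕ) (M : Graph) : Prop := ∀ n, phi e n = Part.some (M.diag n)

/-- `A` is uniformly `d`-computably categorical, where `d` is the degree of `D`: some partial
`D`-computable `g` is such that whenever `φ_e` is the atomic diagram of a copy `B` of `A`, the map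
`x ↦ g ⟨e, x⟩` is defined on the universe of `A` and is an isomorphism from `A` to `B`. -/
def UnifCategorical (A : Graph) (D : ℕ → ℕ) : Prop :=
  ∃ g : ℕ →. ℕ, TuringReducible g (D : ℕ →. ℕ) ∧
    ∀ (e : ℕ) (B : Graph), IsIndex e B → (∃ f, IsIso A B f) →
      ∃ f : ℕ → ℕ, IsIso A B f ∧ ∀ x ∈ A.dom, g (Nat.pair e x) = Part.some (f x)

/-- `C` is a uniformly computable collection of copies of `A`. -/
def UnifCollection (A : Graph) (C : ℕ → Graph) : Prop :=
  (∀ i, ∃ f, IsIso A (C i) f) ∧ ∃ f : ℕ → ℕ, Computable f ∧ ∀ i, IsIndex (f i) (C i)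

/-- `A` is uniformly `d`-computably categorical within `C`, where `d` is the degree of `D`: some
total `D`-computable `h` is such that `x ↦ h ⟨i, x⟩` is an isomorphism from `A` to `C i` for
every `i`. -/
def UnifCategoricalWithin (A : Graph) (C : ℕ → Graph) (D : ℕ → ℕ) : Prop :=
  ∃ h : ℕ → ℕ, TuringReducible (h : ℕ →. ℕ) (D : ℕ →. ℕ) ∧
    ∀ i, IsIso A (C i) (fun x => h (Nat.pair i x))

end Pool.Agent.Lib.MP_dc84f7_lc
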