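import Mathlib

/-!
# Functionals for relativized computations
-/

set_option autoImplicit false

namespace Pool.Agent.Lib.MP_dc84f7_lc

open Nat.Partrec Encodable

/-- initial segment of length `n` -/
def restr (D : ℕ → ℕ) (n : ℕ) : List ℕ := (List.range n).map D

@[simp] theorem restr_length (D : ℕ → ℕ) (n : ℕ) : (restr D n).length = n := by simp [restr]

theorem restr_getElem? (D : ℕ → ℕ) {n i : ℕ} (h : i < n) : (restr D n)[i]? = some (D i) := by
  simp [restr, h]

theorem restr_take (D : ℕ → ℕ) {n m : ℕ} (h : m ≤ n) : (restr D n).take m = restr D m := by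
  simp only [restr, ← List.map_take, List.take_range, min_eq_left h]

theorem restr_prefix (D : ℕ → ℕ) {n m : ℕ} (h : m ≤ n) : restr D m <+: restr D n := by
  rw [← restr_take D h]
  exact List.take_prefix _ _

theorem prefix_restr {D : ℕ → ℕ} {n : ℕ} {σ : List ℕ} (h : σ <+: restr D n) :
    σ = restr D σ.length := by
  have h1 := h.length_le
  rw [restr_length] at h1
  rw [← restr_take D h1]
  exact List.prefix_iff_eq_take.1 h

theorem restr_congr {D D' : ℕ → ℕ} {n : ℕ} : restr D n = restr D' n ↔ ∀ i, i < n → D i = D' i := by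
  constructor
  · intro h i hi
    have h1 := restr_getElem? D hi
    rw [h, restr_getElem? D' hi] at h1
    exact (Option.some.inj h1).symm
  · intro h
    unfold restr
    apply List.map_congr_left
    intro i hi
    exact h i (List.mem_range.1 hi)

/-- monotone functionals -/
def Mono (Ψ : List ℕ → ℕ →. ℕ) : Prop :=
  ∀ σ τ : List ℕ, σ <+: τ → ∀ x y, y ∈ Ψ σ x → y ∈ Ψ τ x

theorem exists_functional {D : ℕ → ℕ} {g : ℕ →. ℕ} (h : Nat.RecursiveIn {(D : ℕ →. ℕ)} g) :
    ∃ Ψ : List ℕ → ℕ →. ℕ, Partrec₂ Ψ ∧ Mono Ψ ∧ ∀ x y, y ∈ g x ↔ ∃ n, y ∈ Ψ (restr D n) x := by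
  induction h with
  | zero =>
    refine ⟨fun _ _ => Part.some 0, ?_, fun _ _ _ _ _ h => h, fun x y => ⟨fun h => ⟨0, h⟩, fun ⟨_, h⟩ => h⟩⟩
    exact (Computable.const 0 : Computable (fun _ : List ℕ × ℕ => 0)).partrec.to₂
  | succ =>
    refine ⟨fun _ x => Part.some (x + 1), ?_, fun _ _ _ _ _ h => h, fun x y => ⟨fun h => ⟨0, h⟩, fun ⟨_, h⟩ => h⟩⟩
    exact (Computable.succ.comp Computable.snd : Computable (fun p : List ℕ × ℕ => p.2 + 1)).partrec.to₂
  | left =>
    refine ⟨fun _ x => Part.some x.unpair.1, ?_, fun _ _ _ _ _ h => h, fun x y => ⟨fun h => ⟨0, h⟩, fun ⟨_, h⟩ => h⟩⟩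
    exact (Computable.fst.comp (Computable.unpair.comp Computable.snd) :
      Computable (fun p : List ℕ × ℕ => p.2.unpair.1)).partrec.to₂
  | right =>
    refine ⟨fun _ x => Part.some x.unpair.2, ?_, fun _ _ _ _ _ h => h, fun x y => ⟨fun h => ⟨0, h⟩, fun ⟨_, h⟩ => h⟩⟩
    exact (Computable.snd.comp (Computable.unpair.comp Computable.snd) :
      Computable (fun p : List ℕ × ℕ => p.2.unpair.2)).partrec.to₂
  | oracle g hg =>
    rw [Set.mem_singleton_iff] at hg
    subst hg
    refine ⟨fun σ x => ((σ[x]? : Option ℕ) : Part ℕ), ?_, ?_, ?_⟩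
    · exact (Computable.ofOption (Computable.list_getElem?.comp Computable.fst Computable.snd)).to₂
    · intro σ τ hστ x y hy
      rw [Part.mem_ofOption] at hy ⊢
      obtain ⟨ρ, rfl⟩ := hστ
      obtain ⟨hx, _⟩ := List.getElem?_eq_some_iff.1 hy
      rw [Option.mem_def, List.getElem?_append_left hx]
      exact hy
    · intro x y
      constructor
      · intro hy
        refine ⟨x + 1, ?_⟩
        rw [Part.mem_ofOption, restr_getElem? D (Nat.lt_succ_self x)]
        simp only [PFun.coe_val, Part.mem_some_iff] at hy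
        rw [hy]; rfl
      · rintro ⟨n, hn⟩
        rw [Part.mem_ofOption] at hn
        have hx : x < n := by
          by_contra hcon
          have : (restr D n)[x]? = Option.none := by
            rw [List.getElem?_eq_none_iff]; simp; omega
          rw [this] at hn
          exact absurd hn (by simp)
        rw [restr_getElem? D hx] at hn
        simpa [eq_comm] using hn
  | @pair f h _ _ ihf ihh =>
    obtain ⟨F, hF, hF', hF''⟩ := ihf
    obtain ⟨H, hH, hH', hH''⟩ := ihh
    refine ⟨fun σ x => (F σ x).bind fun a => (H σ x).map fun b => Nat.pair a b, ?_, ?_, ?_⟩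
    · have e1 : Partrec (fun p : List ℕ × ℕ => F p.1 p.2) := hF
      have e2 : Partrec (fun p : (List ℕ × ℕ) × ℕ => H p.1.1 p.1.2) :=
        hH.comp (Computable.fst.comp Computable.fst) (Computable.snd.comp Computable.fst)
      have e3 : Computable₂ (fun (p : (List ℕ × ℕ) × ℕ) (b : ℕ) => Nat.pair p.2 b) :=
        ((Primrec₂.to_comp Primrec₂.natPair).comp (Computable.snd.comp Computable.fst) Computable.snd).to₂
      have e4 : Partrec₂ (fun (p : List ℕ × ℕ) (a : ℕ) => (H p.1 p.2).map fun b => Nat.pair a b) :=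
        (e2.map e3).to₂
      exact (e1.bind e4).to₂
    · intro σ τ hστ x y hy
      simp only [Part.mem_bind_iff, Part.mem_map_iff] at hy ⊢
      obtain ⟨a, ha, b, hb, rfl⟩ := hy
      exact ⟨a, hF' _ _ hστ _ _ ha, b, hH' _ _ hστ _ _ hb, rfl⟩
    · intro x y
      have e : (Nat.pair <$> f x <*> h x) = (f x).bind fun a => (h x).map fun b => Nat.pair a b := by
        simp [Seq.seq, Part.bind_map, Functor.map]
      show y ∈ (Nat.pair <$> f x <*> h x) ↔
        ∃ n, y ∈ ((F (restr D n) x).bind fun a => (H (restr D n) x).map fun b => Nat.pair a b)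
      rw [e]
      simp only [Part.mem_bind_iff, Part.mem_map_iff]
      constructor
      · rintro ⟨a, ha, b, hb, rfl⟩
        obtain ⟨n, hn⟩ := (hF'' x a).1 ha
        obtain ⟨m, hm⟩ := (hH'' x b).1 hb
        exact ⟨max n m, a, hF' _ _ (restr_prefix D (le_max_left n m)) _ _ hn, b,
          hH' _ _ (restr_prefix D (le_max_right n m)) _ _ hm, rfl⟩
      · rintro ⟨n, a, ha, b, hb, rfl⟩
        exact ⟨a, (hF'' x a).2 ⟨n, ha⟩, b, (hH'' x b).2 ⟨n, hb⟩, rfl⟩
  | @comp f h _ _ ihf ihh =>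
    obtain ⟨F, hF, hF', hF''⟩ := ihf
    obtain ⟨H, hH, hH', hH''⟩ := ihh
    refine ⟨fun σ x => (H σ x).bind fun a => F σ a, ?_, ?_, ?_⟩
    · have e1 : Partrec (fun p : List ℕ × ℕ => H p.1 p.2) := hH
      have e2 : Partrec₂ (fun (p : List ℕ × ℕ) (a : ℕ) => F p.1 a) :=
        (hF.comp (Computable.fst.comp Computable.fst) Computable.snd).to₂
      exact (e1.bind e2).to₂
    · intro σ τ hστ x y hy
      simp only [Part.mem_bind_iff] at hy ⊢
      obtain ⟨a, ha, hb⟩ := hy
      exact ⟨a, hH' _ _ hστ _ _ ha, hF' _ _ hστ _ _ hb⟩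
    · intro x y
      show y ∈ (h x).bind f ↔ ∃ n, y ∈ ((H (restr D n) x).bind fun a => F (restr D n) a)
      simp only [Part.mem_bind_iff]
      constructor
      · rintro ⟨a, ha, hb⟩
        obtain ⟨n, hn⟩ := (hH'' x a).1 ha
        obtain ⟨m, hm⟩ := (hF'' a y).1 hb
        exact ⟨max n m, a, hH' _ _ (restr_prefix D (le_max_left n m)) _ _ hn,
          hF' _ _ (restr_prefix D (le_max_right n m)) _ _ hm⟩
      · rintro ⟨n, a, ha, hb⟩
        exact ⟨a, (hH'' x a).2 ⟨n, ha⟩, (hF'' a y).2 ⟨n, hb⟩⟩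
  | @prec f h _ _ ihf ihh =>
    obtain ⟨F, hF, hF', hF''⟩ := ihf
    obtain ⟨H, hH, hH', hH''⟩ := ihh
    let R : List ℕ → ℕ → ℕ → Part ℕ := fun σ a n =>
      Nat.rec (F σ a) (fun y IH => IH.bind fun i => H σ (Nat.pair a (Nat.pair y i))) n
    let R0 : ℕ → ℕ → Part ℕ := fun a n =>
      Nat.rec (f a) (fun y IH => IH.bind fun i => h (Nat.pair a (Nat.pair y i))) n
    have hmono : ∀ σ τ : List ℕ, σ <+: τ → ∀ a n y, y ∈ R σ a n → y ∈ R τ a n := by
      intro σ τ hστ a n
      induction n with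
      | zero => intro y hy; exact hF' _ _ hστ _ _ hy
      | succ n ih =>
        intro y hy
        have hy' : y ∈ (R σ a n).bind fun i => H σ (Nat.pair a (Nat.pair n i)) := hy
        show y ∈ (R τ a n).bind fun i => H τ (Nat.pair a (Nat.pair n i))
        rw [Part.mem_bind_iff] at hy' ⊢
        obtain ⟨i, hi, hi'⟩ := hy'
        exact ⟨i, ih i hi, hH' _ _ hστ _ _ hi'⟩
    have hiff : ∀ a n y, y ∈ R0 a n ↔ ∃ k, y ∈ R (restr D k) a n := by
      intro a n
      induction n with
      | zero => intro y; exact hF'' a y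
      | succ n ih =>
        intro y
        show y ∈ ((R0 a n).bind fun i => h (Nat.pair a (Nat.pair n i))) ↔
          ∃ k, y ∈ ((R (restr D k) a n).bind fun i => H (restr D k) (Nat.pair a (Nat.pair n i)))
        simp only [Part.mem_bind_iff]
        constructor
        · rintro ⟨i, hi, hi'⟩
          obtain ⟨k, hk⟩ := (ih i).1 hi
          obtain ⟨m, hm⟩ := (hH'' _ y).1 hi'
          exact ⟨max k m, i, hmono _ _ (restr_prefix D (le_max_left k m)) _ _ _ hk,
            hH' _ _ (restr_prefix D (le_max_right k m)) _ _ hm⟩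
        · rintro ⟨k, i, hi, hi'⟩
          exact ⟨i, (ih i).2 ⟨k, hi⟩, (hH'' _ y).2 ⟨k, hi'⟩⟩
    refine ⟨fun σ p => R σ p.unpair.1 p.unpair.2, ?_, ?_, ?_⟩
    · have e1 : Partrec (fun p : List ℕ × ℕ => F p.1 p.2.unpair.1) :=
        hF.comp Computable.fst (Computable.fst.comp (Computable.unpair.comp Computable.snd))
      have e2 : Partrec (fun q : (List ℕ × ℕ) × (ℕ × ℕ) =>
          H q.1.1 (Nat.pair q.1.2.unpair.1 (Nat.pair q.2.1 q.2.2))) := by
        have hp := Primrec₂.to_comp Primrec₂.natPair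
        refine hH.comp (Computable.fst.comp Computable.fst) ?_
        exact hp.comp (Computable.fst.comp (Computable.unpair.comp (Computable.snd.comp Computable.fst)))
          (hp.comp (Computable.fst.comp Computable.snd) (Computable.snd.comp Computable.snd))
      have e3 : Partrec (fun p : List ℕ × ℕ => (Nat.rec (F p.1 p.2.unpair.1)
          (fun y IH => IH.bind fun i => H p.1 (Nat.pair p.2.unpair.1 (Nat.pair y i))) p.2.unpair.2 : Part ℕ)) :=
        Partrec.nat_rec (f := fun p : List ℕ × ℕ => p.2.unpair.2) (g := fun p : List ℕ × ℕ => F p.1 p.2.unpair.1)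
          (h := fun (p : List ℕ × ℕ) (q : ℕ × ℕ) => H p.1 (Nat.pair p.2.unpair.1 (Nat.pair q.1 q.2)))
          (Computable.snd.comp (Computable.unpair.comp Computable.snd)) e1 e2.to₂
      exact e3.to₂
    · intro σ τ hστ x y hy
      exact hmono _ _ hστ _ _ _ hy
    · intro x y
      exact hiff x.unpair.1 x.unpair.2 y
  | @rfind f _ ihf =>
    obtain ⟨F, hF, hF', hF''⟩ := ihf
    let Z : List ℕ → ℕ → (ℕ →. Bool) := fun σ a n => (F σ (Nat.pair a n)).map (fun m => decide (m = 0))
    have hZ : ∀ σ a n b, b ∈ Z σ a n ↔ ∃ m, m ∈ F σ (Nat.pair a n) ∧ decide (m = 0) = b := by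
      intro σ a n b
      show b ∈ (F σ (Nat.pair a n)).map (fun m => decide (m = 0)) ↔ _
      rw [Part.mem_map_iff]
    have hZmono : ∀ σ τ : List ℕ, σ <+: τ → ∀ a n b, b ∈ Z σ a n → b ∈ Z τ a n := by
      intro σ τ hστ a n b hb
      rw [hZ] at hb ⊢
      obtain ⟨m, hm, hm'⟩ := hb
      exact ⟨m, hF' _ _ hστ _ _ hm, hm'⟩
    have hZiff : ∀ a n b, b ∈ ((fun m => decide (m = 0)) <$> f (Nat.pair a n)) ↔ ∃ k, b ∈ Z (restr D k) a n := by
      intro a n b
      constructor
      · intro hb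
        obtain ⟨m, hm, hm'⟩ := (Part.mem_map_iff _).1 hb
        obtain ⟨k, hk⟩ := (hF'' _ m).1 hm
        exact ⟨k, (hZ _ _ _ _).2 ⟨m, hk, hm'⟩⟩
      · rintro ⟨k, hk⟩
        obtain ⟨m, hm, hm'⟩ := (hZ _ _ _ _).1 hk
        exact (Part.mem_map_iff _).2 ⟨m, (hF'' _ m).2 ⟨k, hm⟩, hm'⟩
    refine ⟨fun σ a => Nat.rfind (Z σ a), ?_, ?_, ?_⟩
    · have e1 : Partrec (fun p : (List ℕ × ℕ) × ℕ => F p.1.1 (Nat.pair p.1.2 p.2)) :=
        hF.comp (Computable.fst.comp Computable.fst)
            ((Primrec₂.to_comp Primrec₂.natPair).comp (Computable.snd.comp Computable.fst) Computable.snd)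
      have e2 : Computable (fun m : ℕ => decide (m = 0)) := by
        have h3 : PrimrecRel (fun a b : ℕ => a = b) := Primrec.eq
        exact (Primrec₂.to_comp h3.decide).comp Computable.id (Computable.const 0)
      have e3 : Partrec (fun p : (List ℕ × ℕ) × ℕ => (F p.1.1 (Nat.pair p.1.2 p.2)).map (fun m => decide (m = 0))) :=
        e1.map (e2.comp Computable.snd).to₂
      have e4 : Partrec₂ (fun (p : List ℕ × ℕ) => Z p.1 p.2) := e3.to₂
      exact (Partrec.rfind e4).to₂
    · intro σ τ hστ x y hy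
      rw [Nat.mem_rfind] at hy ⊢
      exact ⟨hZmono _ _ hστ _ _ _ hy.1, fun hm => hZmono _ _ hστ _ _ _ (hy.2 hm)⟩
    · intro x y
      rw [Nat.mem_rfind]
      constructor
      · rintro ⟨h1, h2⟩
        obtain ⟨k, hk⟩ := (hZiff x y true).1 h1
        have h3 : ∀ m, m < y → ∃ k, false ∈ Z (restr D k) x m := fun m hm => (hZiff x m false).1 (h2 hm)
        choose! K hK using h3
        have h4 : ∃ B, ∀ m, m < y → K m ≤ B := by
          refine ⟨(Finset.range y).sup K, ?_⟩
          intro m hm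
          exact Finset.le_sup (Finset.mem_range.2 hm)
        obtain ⟨B, hB⟩ := h4
        refine ⟨max k B, ?_⟩
        rw [Nat.mem_rfind]
        refine ⟨hZmono _ _ (restr_prefix D (le_max_left k B)) _ _ _ hk, ?_⟩
        intro m hm
        exact hZmono _ _ (restr_prefix D ((hB m hm).trans (le_max_right k B))) _ _ _ (hK m hm)
      · rintro ⟨k, hk⟩
        rw [Nat.mem_rfind] at hk
        exact ⟨(hZiff x y true).2 ⟨k, hk.1⟩, fun {m} hm => (hZiff x m false).2 ⟨k, hk.2 hm⟩⟩

/-- a function read off from the oracle along a computable function is computable in the oracle -/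
theorem recursiveIn_comp (D : ℕ → ℕ) {k : ℕ → ℕ} (hk : Computable k) :
    Nat.RecursiveIn {(D : ℕ →. ℕ)} (fun x => Part.some (D (k x))) := by
  have h1 : Nat.RecursiveIn {(D : ℕ →. ℕ)} (D : ℕ →. ℕ) := .oracle _ rfl
  have h2 : Nat.RecursiveIn {(D : ℕ →. ℕ)} (k : ℕ →. ℕ) := Nat.Partrec.recursiveIn (Partrec.nat_iff.1 hk)
  refine (h1.comp h2).of_eq ?_
  intro n
  simp

end Pool.Agent.Lib.MP_dc84f7_lc
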