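import Mathlib

/-!
# Lists ordered by pointwise growth, and their ranks

For a relation `r` on `Q` (`r b a`: `b` is below `a`) we order `List Q` by: `q` is below `p` iff
some initial segment of `q` is pointwise below `p` (further entries of `q` are arbitrary).
-/

set_option autoImplicit false

namespace Pool.Agent.Lib.MP_dc84f7_lc

universe u
variable {Q : Type u} (r : Q → Q → Prop)

/-- `q` is below `p`. -/
def Below (q p : List Q) : Prop := ∃ q₁ q₂, q = q₁ ++ q₂ ∧ List.Forall₂ r q₁ p

variable {r}

theorem below_nil (q : List Q) : Below r q [] := ⟨[], q, rfl, List.Forall₂.nil⟩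

theorem Below.drop {q p : List Q} (h : Below r q p) (n : ℕ) : Below r (q.drop n) (p.drop n) := by
  obtain ⟨q₁, q₂, rfl, h⟩ := h
  have hl := h.length_eq
  rcases Nat.lt_or_ge p.length n with hn | hn
  · rw [List.drop_of_length_le hn.le]
    exact below_nil _
  · refine ⟨q₁.drop n, q₂, ?_, ?_⟩
    · rw [List.drop_append_of_le_length (by omega)]
    · exact List.forall₂_drop n h

theorem Below.trans (hr : ∀ a b c, r a b → r b c → r a c) {s q p : List Q} (h1 : Below r s q)
    (h2 : Below r q p) : Below r s p := by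
  obtain ⟨s₁, s₂, rfl, h1⟩ := h1
  obtain ⟨q₁, q₂, rfl, h2⟩ := h2
  have h3 := List.forall₂_take_append s₁ q₁ q₂ h1
  have h4 := List.forall₂_drop_append s₁ q₁ q₂ h1
  refine ⟨s₁.take q₁.length, s₁.drop q₁.length ++ s₂, ?_, ?_⟩
  · rw [← List.append_assoc, List.take_append_drop]
  · clear h4 h1
    revert h3
    generalize s₁.take q₁.length = t
    intro h3
    induction h2 generalizing t with
    | nil => 
      cases h3
      exact List.Forall₂.nil
    | cons hab _ ih =>
      cases h3 with
      | cons h5 h6 => exact List.Forall₂.cons (hr _ _ _ h5 hab) (ih _ h6)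

/-- `a' ++ v` is below `a ++ u` if `a'` is pointwise below `a` and `v` is below `u`. -/
theorem Below.append {a' a v u : List Q} (h : List.Forall₂ r a' a) (h' : Below r v u) :
    Below r (a' ++ v) (a ++ u) := by
  obtain ⟨v₁, v₂, rfl, h'⟩ := h'
  exact ⟨a' ++ v₁, v₂, by simp, List.rel_append h h'⟩

/-- if an entry is accessible, so is the list -/
theorem acc_of_getElem {p : List Q} {i : ℕ} {a : Q} (hi : p[i]? = some a) (ha : Acc r a) :
    Acc (Below r) p := by
  induction ha generalizing p with
  | intro a _ ih =>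
    refine Acc.intro _ ?_
    rintro q ⟨q₁, q₂, rfl, h⟩
    have hl := h.length_eq
    obtain ⟨hi1, hi2⟩ := List.getElem?_eq_some_iff.1 hi
    have h3 : i < q₁.length := by omega
    refine ih (q₁[i]) ?_ (p := q₁ ++ q₂) ?_
    · have := List.forall₂_iff_get.1 h |>.2 i h3 hi1
      simpa [hi2] using this
    · rw [List.getElem?_append_left h3, List.getElem?_eq_getElem h3]

/-- a non-accessible entry has a non-accessible entry below it -/
theorem exists_below_of_not_acc {a : Q} (h : ¬ Acc r a) : ∃ b, r b a ∧ ¬ Acc r b := by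
  by_contra hcon
  push Not at hcon
  exact h (Acc.intro _ hcon)

theorem exists_forall₂ {a : List Q} (h : ∀ x ∈ a, ¬ Acc r x) :
    ∃ a', List.Forall₂ r a' a ∧ ∀ x ∈ a', ¬ Acc r x := by
  induction a with
  | nil => exact ⟨[], List.Forall₂.nil, by simp⟩
  | cons x a ih =>
    obtain ⟨a', h1, h2⟩ := ih (fun y hy => h y (List.mem_cons_of_mem _ hy))
    obtain ⟨b, hb1, hb2⟩ := exists_below_of_not_acc (h x List.mem_cons_self)
    refine ⟨b :: a', List.Forall₂.cons hb1 h1, ?_⟩
    intro y hy
    rcases List.mem_cons.1 hy with rfl | hy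
    · exact hb2
    · exact h2 y hy

theorem acc_append {a u : List Q} (h : Acc (Below r) u) : Acc (Below r) (a ++ u) := by
  have : ∀ n (v : List Q), Acc (Below r) (v.drop n) → Acc (Below r) v := by
    intro n v hv
    have h1 : Acc (InvImage (Below r) (fun w => w.drop n)) v := InvImage.accessible _ hv
    exact Subrelation.accessible (fun {x y} hxy => hxy.drop n) h1
  exact this a.length _ (by simpa using h)

theorem acc_of_append {a u : List Q} (ha : ∀ x ∈ a, ¬ Acc r x) (h : Acc (Below r) (a ++ u)) :
    Acc (Below r) u := by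
  generalize hw : a ++ u = w at h
  induction h generalizing a u with
  | intro w _ ih =>
    refine Acc.intro _ ?_
    intro v hv
    obtain ⟨a', h1, h2⟩ := exists_forall₂ ha
    exact ih (a' ++ v) (hw ▸ Below.append h1 hv) h2 rfl

/-- ranks do not increase under relation homomorphisms -/
theorem rank_le_of_hom {α β : Type u} {s : α → α → Prop} {s' : β → β → Prop} (f : α → β)
    (hf : ∀ x y, s x y → s' (f x) (f y)) {a : α} (h : Acc s a) (h' : Acc s' (f a)) :
    h.rank ≤ h'.rank := by
  induction h with
  | intro a ha ih =>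
    rw [Acc.rank_eq]
    refine Ordinal.iSup_le ?_
    rintro ⟨b, hb⟩
    rw [Order.succ_le_iff]
    refine lt_of_le_of_lt (ih b hb (h'.inv (hf _ _ hb))) ?_
    exact Acc.rank_lt_of_rel h' (hf _ _ hb)

theorem rank_append_le {a u : List Q} (h : Acc (Below r) u) (h' : Acc (Below r) (a ++ u)) :
    h'.rank ≤ h.rank := by
  have h2 : Acc (Below r) ((a ++ u).drop a.length) := by simpa using h
  have h3 := rank_le_of_hom (fun w : List Q => w.drop a.length) (fun x y hxy => hxy.drop a.length) h' h2
  have h4 : (a ++ u).drop a.length = u := by simp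
  have h5 : h2.rank = h.rank := by
    congr 1
  rw [← h5]
  exact h3

theorem le_rank_append {a u : List Q} (ha : ∀ x ∈ a, ¬ Acc r x) (h : Acc (Below r) u)
    (h' : Acc (Below r) (a ++ u)) : h.rank ≤ h'.rank := by
  induction h generalizing a with
  | intro u hu ih =>
    rw [Acc.rank_eq]
    refine Ordinal.iSup_le ?_
    rintro ⟨v, hv⟩
    rw [Order.succ_le_iff]
    obtain ⟨a', h1, h2⟩ := exists_forall₂ ha
    refine lt_of_le_of_lt (ih v hv h2 (h'.inv (Below.append h1 hv))) ?_
    exact Acc.rank_lt_of_rel h' (Below.append h1 hv)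

theorem rank_append {a u : List Q} (ha : ∀ x ∈ a, ¬ Acc r x) (h : Acc (Below r) u)
    (h' : Acc (Below r) (a ++ u)) : h'.rank = h.rank :=
  le_antisymm (rank_append_le h h') (le_rank_append ha h h')

open Classical in
/-- the type of an element: its rank, or `⊤` if it is not accessible -/
noncomputable def typ {α : Type u} (s : α → α → Prop) (a : α) : WithTop Ordinal.{u} :=
  if h : Acc s a then ((h.rank : Ordinal.{u}) : WithTop Ordinal.{u}) else ⊤

theorem typ_of_acc {α : Type u} {s : α → α → Prop} {a : α} (h : Acc s a) :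
    typ s a = ((h.rank : Ordinal.{u}) : WithTop Ordinal.{u}) := by
  unfold typ
  rw [dif_pos h]

theorem typ_of_not_acc {α : Type u} {s : α → α → Prop} {a : α} (h : ¬ Acc s a) :
    typ s a = ⊤ := by
  unfold typ
  rw [dif_neg h]

theorem typ_append {a u : List Q} (ha : ∀ x ∈ a, ¬ Acc r x) :
    typ (Below r) (a ++ u) = typ (Below r) u := by
  by_cases h : Acc (Below r) u
  · have h' : Acc (Below r) (a ++ u) := acc_append h
    rw [typ_of_acc h, typ_of_acc h', rank_append ha h h']
  · rw [typ_of_not_acc h, typ_of_not_acc (fun h' => h (acc_of_append ha h'))]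

/-- in a transitive relation every ordinal below the rank is the rank of an element below -/
theorem exists_rank_eq {α : Type u} {s : α → α → Prop} (hs : ∀ a b c, s a b → s b c → s a c)
    {a : α} (h : Acc s a) {o : Ordinal.{u}} (ho : o < h.rank) :
    ∃ b, ∃ hb : s b a, (h.inv hb).rank = o := by
  induction h with
  | intro a ha ih =>
    rw [Acc.rank_eq, Ordinal.lt_iSup_iff] at ho
    obtain ⟨⟨b, hb⟩, hob⟩ := ho
    rw [Order.lt_succ_iff, le_iff_lt_or_eq] at hob
    rcases hob with hob | hob
    · obtain ⟨c, hc, hc2⟩ := ih b hb hob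
      exact ⟨c, hs _ _ _ hc hb, hc2⟩
    · exact ⟨b, hb, hob.symm⟩

/-- The key property: elements of the same type have elements of the same types below them. -/
theorem typ_step (hr : ∀ a b c, r a b → r b c → r a c) {p p' q : List Q}
    (h : typ (Below r) p = typ (Below r) p') (hq : Below r q p) :
    ∃ q', Below r q' p' ∧ typ (Below r) q' = typ (Below r) q := by
  by_cases hp : Acc (Below r) p
  · have hp' : Acc (Below r) p' := by
      by_contra hcon
      rw [typ_of_acc hp, typ_of_not_acc hcon] at h
      exact WithTop.coe_ne_top h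
    rw [typ_of_acc hp, typ_of_acc hp', WithTop.coe_inj] at h
    have h1 := Acc.rank_lt_of_rel hp hq
    rw [h] at h1
    obtain ⟨q', hq', h2⟩ := exists_rank_eq (s := Below r)
      (fun _ _ _ h1 h2 => Below.trans hr h1 h2) hp' h1
    exact ⟨q', hq', by rw [typ_of_acc (hp'.inv hq'), typ_of_acc (hp.inv hq), h2]⟩
  · have hp' : ¬ Acc (Below r) p' := by
      intro hcon
      rw [typ_of_acc hcon, typ_of_not_acc hp] at h
      exact WithTop.coe_ne_top h.symm
    have h1 : ∀ x ∈ p', ¬ Acc r x := by
      intro x hx hcon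
      obtain ⟨i, hi⟩ := List.mem_iff_getElem?.1 hx
      exact hp' (acc_of_getElem hi hcon)
    obtain ⟨a', h2, h3⟩ := exists_forall₂ h1
    exact ⟨a' ++ q, ⟨a', q, rfl, h2⟩, typ_append h3⟩

end Pool.Agent.Lib.MP_dc84f7_lc
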