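import Mathlib

/-!
# Semi-decidable predicates in existential form
-/

set_option autoImplicit false

namespace Pool.Agent.Lib.MP_dc84f7_lc

open Nat.Partrec Encodable

universe u v

variable {α : Type*} {β : Type*} [Primcodable α] [Primcodable β]

/-- semi-decidable predicates: projections of computable ones -/
def SD (p : α → Prop) : Prop :=
  ∃ q : α → ℕ → Bool, Computable₂ q ∧ ∀ a, p a ↔ ∃ n, q a n = true

theorem SD.of_iff {p p' : α → Prop} (h : SD p) (hp : ∀ a, p' a ↔ p a) : SD p' := by
  obtain ⟨q, hq, h⟩ := h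
  exact ⟨q, hq, fun a => (hp a).trans (h a)⟩

theorem SD.of_computable {b : α → Bool} (hb : Computable b) : SD (fun a => b a = true) :=
  ⟨fun a _ => b a, hb.comp Computable.fst, fun _ => by simp⟩

theorem SD.of_computablePred {p : α → Prop} [DecidablePred p] (hp : Computable (fun a => decide (p a))) :
    SD p :=
  (SD.of_computable hp).of_iff (fun a => by simp)

theorem SD.comp {p : β → Prop} (h : SD p) {f : α → β} (hf : Computable f) : SD (fun a => p (f a)) := by
  obtain ⟨q, hq, h⟩ := h
  exact ⟨fun a n => q (f a) n, hq.comp (hf.comp Computable.fst) Computable.snd, fun a => h (f a)⟩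

theorem SD.or {p p' : α → Prop} (h : SD p) (h' : SD p') : SD (fun a => p a ∨ p' a) := by
  obtain ⟨q, hq, h⟩ := h
  obtain ⟨q', hq', h'⟩ := h'
  have hor : Computable₂ (fun a b : Bool => a || b) := Primrec₂.to_comp Primrec.or
  refine ⟨fun a n => q a n || q' a n, hor.comp hq hq', ?_⟩
  intro a
  show p a ∨ p' a ↔ _
  rw [h, h']
  constructor
  · rintro (⟨n, hn⟩ | ⟨n, hn⟩) <;> exact ⟨n, by simp [hn]⟩
  · rintro ⟨n, hn⟩
    rw [Bool.or_eq_true] at hn
    rcases hn with hn | hn
    · exact Or.inl ⟨n, hn⟩
    · exact Or.inr ⟨n, hn⟩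

theorem SD.and {p p' : α → Prop} (h : SD p) (h' : SD p') : SD (fun a => p a ∧ p' a) := by
  obtain ⟨q, hq, h⟩ := h
  obtain ⟨q', hq', h'⟩ := h'
  have hand : Computable₂ (fun a b : Bool => a && b) := Primrec₂.to_comp Primrec.and
  have e1 : Computable (fun x : α × ℕ => q x.1 x.2.unpair.1) :=
    hq.comp Computable.fst (Computable.fst.comp (Computable.unpair.comp Computable.snd))
  have e2 : Computable (fun x : α × ℕ => q' x.1 x.2.unpair.2) :=
    hq'.comp Computable.fst (Computable.snd.comp (Computable.unpair.comp Computable.snd))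
  refine ⟨fun a n => q a n.unpair.1 && q' a n.unpair.2, hand.comp e1 e2, ?_⟩
  intro a
  show p a ∧ p' a ↔ ∃ n : ℕ, (q a n.unpair.1 && q' a n.unpair.2) = true
  rw [h, h']
  constructor
  · rintro ⟨⟨n, hn⟩, ⟨m, hm⟩⟩
    exact ⟨Nat.pair n m, by simp [hn, hm]⟩
  · rintro ⟨n, hn⟩
    rw [Bool.and_eq_true] at hn
    exact ⟨⟨_, hn.1⟩, ⟨_, hn.2⟩⟩

theorem SD.ex {p : α → β → Prop} (h : SD (fun x : α × β => p x.1 x.2)) : SD (fun a => ∃ b, p a b) := by
  obtain ⟨q, hq, h⟩ := h
  let q' : α → ℕ → Bool := fun a n => ((decode (α := β) n.unpair.1).map (fun b => q (a, b) n.unpair.2)).getD false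
  have hq' : Computable₂ q' := by
    have e1 : Computable (fun x : α × ℕ => decode (α := β) x.2.unpair.1) :=
      Computable.decode.comp (Computable.fst.comp (Computable.unpair.comp Computable.snd))
    have e2 : Computable₂ (fun (x : α × ℕ) (b : β) => q (x.1, b) x.2.unpair.2) := by
      have : Computable (fun y : (α × ℕ) × β => q (y.1.1, y.2) y.1.2.unpair.2) :=
        hq.comp ((Computable.fst.comp Computable.fst).pair Computable.snd)
          (Computable.snd.comp (Computable.unpair.comp (Computable.snd.comp Computable.fst)))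
      exact this
    have e3 : Computable (fun x : α × ℕ => (decode (α := β) x.2.unpair.1).map (fun b => q (x.1, b) x.2.unpair.2)) :=
      Computable.option_map e1 e2
    exact Computable.option_getD e3 (Computable.const false)
  refine ⟨q', hq', ?_⟩
  intro a
  constructor
  · rintro ⟨b, hb⟩
    obtain ⟨n, hn⟩ := (h (a, b)).1 hb
    refine ⟨Nat.pair (encode b) n, ?_⟩
    simp [q', hn]
  · rintro ⟨n, hn⟩
    simp only [q'] at hn
    cases hd : decode (α := β) n.unpair.1 with
    | none => rw [hd] at hn; simp at hn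
    | some b =>
      rw [hd] at hn
      exact ⟨b, (h (a, b)).2 ⟨_, by simpa using hn⟩⟩

/-- bounded conjunction -/
def allBelow (b : ℕ → Bool) (k : ℕ) : Bool := Nat.rec true (fun i r => r && b i) k

theorem allBelow_iff (b : ℕ → Bool) (k : ℕ) : allBelow b k = true ↔ ∀ i, i < k → b i = true := by
  induction k with
  | zero => simp [allBelow]
  | succ k ih =>
    have : allBelow b (k + 1) = (allBelow b k && b k) := rfl
    rw [this, Bool.and_eq_true, ih]
    constructor
    · rintro ⟨h1, h2⟩ i hi
      rcases Nat.lt_succ_iff_lt_or_eq.1 hi with hi | rfl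
      · exact h1 i hi
      · exact h2
    · intro h1
      exact ⟨fun i hi => h1 i (by omega), h1 k (by omega)⟩

theorem computable_allBelow {b : α → ℕ → Bool} (hb : Computable₂ b) :
    Computable₂ (fun a k => allBelow (b a) k) := by
  have hand : Computable₂ (fun a b : Bool => a && b) := Primrec₂.to_comp Primrec.and
  have e3 : Computable (fun z : (α × ℕ) × (ℕ × Bool) => z.2.2 && b z.1.1 z.2.1) :=
    hand.comp (Computable.snd.comp Computable.snd)
      (hb.comp (Computable.fst.comp Computable.fst) (Computable.fst.comp Computable.snd))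
  have e4 : Computable₂ (fun (y : α × ℕ) (s : ℕ × Bool) => s.2 && b y.1 s.1) := e3.to₂
  have e5 : Computable (fun y : α × ℕ => (Nat.rec true (fun i r => r && b y.1 i) y.2 : Bool)) :=
    Computable.nat_rec (f := fun y : α × ℕ => y.2) (g := fun _ => true)
      (h := fun (y : α × ℕ) (s : ℕ × Bool) => s.2 && b y.1 s.1)
      Computable.snd (Computable.const true) e4
  exact e5.to₂

/-- bounded universal quantification -/
theorem SD.forall_lt {p : α → ℕ → Prop} (h : SD (fun x : α × ℕ => p x.1 x.2)) {f : α → ℕ}
    (hf : Computable f) : SD (fun a => ∀ i, i < f a → p a i) := by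
  obtain ⟨q, hq, h⟩ := h
  -- search for a list of witnesses
  have e1 : Computable (fun y : (α × List ℕ) × ℕ => (y.1.2[y.2]? : Option ℕ)) :=
    Computable.list_getElem?.comp (Computable.snd.comp Computable.fst) Computable.snd
  have e2 : Computable (fun z : ((α × List ℕ) × ℕ) × ℕ => q (z.1.1.1, z.1.2) z.2) :=
    hq.comp ((Computable.fst.comp (Computable.fst.comp Computable.fst)).pair
      (Computable.snd.comp Computable.fst)) Computable.snd
  have e2' : Computable₂ (fun (y : (α × List ℕ) × ℕ) (n : ℕ) => q (y.1.1, y.2) n) := e2.to₂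
  have e3 : Computable (fun y : (α × List ℕ) × ℕ =>
      ((y.1.2[y.2]? : Option ℕ).map (fun n => q (y.1.1, y.2) n)).getD false) :=
    Computable.option_getD (Computable.option_map e1 e2') (Computable.const false)
  have e3' : Computable₂ (fun (y : α × List ℕ) (i : ℕ) =>
      ((y.2[i]? : Option ℕ).map (fun n => q (y.1, i) n)).getD false) := e3.to₂
  have e4 := computable_allBelow e3'
  refine SD.of_iff (p := fun a => ∃ l : List ℕ,
    allBelow (fun i => ((l[i]? : Option ℕ).map (fun n => q (a, i) n)).getD false) (f a) = true) ?_ ?_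
  · refine SD.ex (p := fun a (l : List ℕ) =>
      allBelow (fun i => ((l[i]? : Option ℕ).map (fun n => q (a, i) n)).getD false) (f a) = true) ?_
    have : Computable (fun x : α × List ℕ => allBelow (fun i =>
        ((x.2[i]? : Option ℕ).map (fun n => q (x.1, i) n)).getD false) (f x.1)) :=
      e4.comp Computable.id (hf.comp Computable.fst)
    exact SD.of_computable this
  · intro a
    constructor
    · intro hall
      choose! w hw using fun i (hi : i < f a) => (h (a, i)).1 (hall i hi)
      refine ⟨(List.range (f a)).map w, ?_⟩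
      rw [allBelow_iff]
      intro i hi
      rw [List.getElem?_map, List.getElem?_range hi]
      simpa using hw i hi
    · rintro ⟨l, hl⟩ i hi
      rw [allBelow_iff] at hl
      have := hl i hi
      cases hd : (l[i]? : Option ℕ) with
      | none => rw [hd] at this; simp at this
      | some n =>
        rw [hd] at this
        exact (h (a, i)).2 ⟨n, by simpa using this⟩

theorem SD.of_partrec {f : α →. β} (hf : Partrec f) : SD (fun x : α × β => x.2 ∈ f x.1) := by
  obtain ⟨c, hc⟩ := Code.exists_code.1 hf
  have hq : Computable₂ (fun (x : α × β) (k : ℕ) =>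
      decide (Code.evaln k c (encode x.1) = some (encode x.2))) := by
    have h1 : Computable (fun y : (α × β) × ℕ => Code.evaln y.2 c (encode y.1.1)) :=
      (Primrec.to_comp Code.primrec_evaln).comp
        ((Computable.snd.pair (Computable.const c)).pair (Computable.encode.comp (Computable.fst.comp Computable.fst)))
    have h2 : Computable (fun y : (α × β) × ℕ => some (encode y.1.2)) :=
      Computable.option_some.comp (Computable.encode.comp (Computable.snd.comp Computable.fst))
    have h3 : PrimrecRel (fun a b : Option ℕ => a = b) := Primrec.eq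
    exact (Primrec₂.to_comp h3.decide).comp h1 h2
  refine ⟨_, hq, ?_⟩
  rintro ⟨a, b⟩
  simp only [decide_eq_true_eq]
  have h4 : b ∈ f a ↔ encode b ∈ Code.eval c (encode a) := by
    rw [hc]
    simp only [encodek, Part.coe_some, Part.bind_some, Part.mem_map_iff]
    constructor
    · intro h; exact ⟨b, h, rfl⟩
    · rintro ⟨b', h, hb'⟩
      rw [← encode_injective hb']
      exact h
  rw [h4, Code.evaln_complete]
  rfl

theorem SD.dom {f : α →. β} (hf : Partrec f) : SD (fun a => (f a).Dom) := by
  refine (SD.ex (p := fun a b => b ∈ f a) (SD.of_partrec hf)).of_iff ?_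
  intro a
  rw [Part.dom_iff_mem]

/-- universal enumeration of the semi-decidable predicates -/
def Wt (e t x : ℕ) : Bool := (Code.evaln t (Denumerable.ofNat Code e) x).isSome

theorem SD.exists_index {p : α → Prop} (h : SD p) : ∃ e : ℕ, ∀ a, p a ↔ ∃ t, Wt e t (encode a) = true := by
  obtain ⟨q, hq, h⟩ := h
  have h1 : Partrec (fun a => Nat.rfind (fun n => Part.some (q a n) : ℕ →. Bool)) :=
    Partrec.rfind hq.partrec₂
  obtain ⟨c, hc⟩ := Code.exists_code.1 h1
  refine ⟨encode c, ?_⟩
  intro a
  rw [h]
  have h2 : (∃ t, Wt (encode c) t (encode a) = true) ↔ (Code.eval c (encode a)).Dom := by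
    unfold Wt
    rw [Denumerable.ofNat_encode, Part.dom_iff_mem]
    simp only [Code.evaln_complete, Option.isSome_iff_exists]
    constructor
    · rintro ⟨t, y, hy⟩; exact ⟨y, t, hy⟩
    · rintro ⟨y, t, hy⟩; exact ⟨t, y, hy⟩
  rw [h2, hc]
  simp only [encodek, Part.coe_some, Part.bind_some, Part.map_Dom]
  rw [Nat.rfind_dom]
  constructor
  · rintro ⟨n, hn⟩
    classical
    have hex : ∃ n, q a n = true := ⟨n, hn⟩
    refine ⟨Nat.find hex, ?_, ?_⟩
    · simpa using Nat.find_spec hex
    · intro m _; trivial
  · rintro ⟨n, hn, _⟩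
    exact ⟨n, by simpa using hn⟩

theorem Wt_mono {e t t' x : ℕ} (h : t ≤ t') (hW : Wt e t x = true) : Wt e t' x = true := by
  unfold Wt at *
  rw [Option.isSome_iff_exists] at *
  obtain ⟨y, hy⟩ := hW
  exact ⟨y, Code.evaln_mono h hy⟩

theorem Wt_primrec : Primrec (fun x : ℕ × ℕ × ℕ => Wt x.1 x.2.1 x.2.2) := by
  have h1 : Primrec (fun x : ℕ × ℕ × ℕ => Code.evaln x.2.1 (Denumerable.ofNat Code x.1) x.2.2) :=
    Code.primrec_evaln.comp
      (((Primrec.fst.comp Primrec.snd).pair ((Primrec.ofNat Code).comp Primrec.fst)).pair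
        (Primrec.snd.comp Primrec.snd))
  exact Primrec.option_isSome.comp h1

attribute [irreducible] Wt allBelow

end Pool.Agent.Lib.MP_dc84f7_lc
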