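import Mathlib

/-!
# Trees of descending sequences and their isomorphisms
-/

set_option autoImplicit false

namespace Pool.Agent.Lib.MP_dc84f7_lc

universe u v

/-- the last element of a descending sequence starting below `p₀` (sequences are written
backwards: the last element is the head of the list) -/
def top {P : Type u} (p₀ : P) : List (P × ℕ) → P
  | [] => p₀
  | c :: _ => c.1

/-- descending sequences starting below `p₀` -/
def Node {P : Type u} (s : P → P → Prop) (p₀ : P) : List (P × ℕ) → Prop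
  | [] => True
  | c :: l => s c.1 (top p₀ l) ∧ Node s p₀ l

variable {P : Type u} {s : P → P → Prop} {τ : Type v} {t : P → τ}

theorem exists_children_equiv [Countable P]
    (hstep : ∀ p p' q, t p = t p' → s q p → ∃ q', s q' p' ∧ t q' = t q) (p p' : P) (h : t p = t p') :
    ∃ e : {c : P × ℕ // s c.1 p} ≃ {c : P × ℕ // s c.1 p'}, ∀ c, t (e c).1.1 = t c.1.1 := by
  classical
  have key : ∀ (p : P) (v : τ), (∃ q, s q p ∧ t q = v) →
      Nonempty ({c : {c : P × ℕ // s c.1 p} // t c.1.1 = v} ≃ ℕ) := by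
    intro p v hv
    obtain ⟨q, hq, hqv⟩ := hv
    have h1 : Infinite {c : {c : P × ℕ // s c.1 p} // t c.1.1 = v} := by
      refine Infinite.of_injective (fun n : ℕ => ⟨⟨(q, n), hq⟩, hqv⟩) ?_
      intro a b hab
      simpa using hab
    obtain ⟨hd⟩ := nonempty_denumerable {c : {c : P × ℕ // s c.1 p} // t c.1.1 = v}
    exact ⟨hd.eqv⟩
  have key2 : ∀ v : τ, Nonempty ({c : {c : P × ℕ // s c.1 p} // t c.1.1 = v} ≃
      {c : {c : P × ℕ // s c.1 p'} // t c.1.1 = v}) := by
    intro v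
    by_cases hv : ∃ q, s q p ∧ t q = v
    · have hv' : ∃ q, s q p' ∧ t q = v := by
        obtain ⟨q, hq, hqv⟩ := hv
        obtain ⟨q', h1, h2⟩ := hstep p p' q h hq
        exact ⟨q', h1, h2.trans hqv⟩
      obtain ⟨e1⟩ := key p v hv
      obtain ⟨e2⟩ := key p' v hv'
      exact ⟨e1.trans e2.symm⟩
    · have hv' : ¬ ∃ q, s q p' ∧ t q = v := by
        rintro ⟨q, hq, hqv⟩
        obtain ⟨q', h1, h2⟩ := hstep p' p q h.symm hq
        exact hv ⟨q', h1, h2.trans hqv⟩
      have : IsEmpty {c : {c : P × ℕ // s c.1 p} // t c.1.1 = v} :=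
        ⟨fun c => hv ⟨c.1.1.1, c.1.2, c.2⟩⟩
      have : IsEmpty {c : {c : P × ℕ // s c.1 p'} // t c.1.1 = v} :=
        ⟨fun c => hv' ⟨c.1.1.1, c.1.2, c.2⟩⟩
      exact ⟨Equiv.equivOfIsEmpty _ _⟩
  have E := fun v => Classical.choice (key2 v)
  let e : {c : P × ℕ // s c.1 p} ≃ {c : P × ℕ // s c.1 p'} :=
    (Equiv.sigmaFiberEquiv (fun c : {c : P × ℕ // s c.1 p} => t c.1.1)).symm.trans
      ((Equiv.sigmaCongrRight E).trans
        (Equiv.sigmaFiberEquiv (fun c : {c : P × ℕ // s c.1 p'} => t c.1.1)))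
  refine ⟨e, ?_⟩
  intro c
  exact (E (t c.1.1) ⟨c, rfl⟩).2

theorem exists_node_iso [Countable P]
    (hstep : ∀ p p' q, t p = t p' → s q p → ∃ q', s q' p' ∧ t q' = t q) {p₀ p₀' : P} (h : t p₀ = t p₀') :
    ∃ F : List (P × ℕ) → List (P × ℕ), Set.BijOn F {l | Node s p₀ l} {l | Node s p₀' l} ∧
      ∀ l m, Node s p₀ l → Node s p₀ m → ((∃ c, m = c :: l) ↔ ∃ c, F m = c :: F l) := by
  classical
  choose E hE using fun (x : {x : P × P // t x.1 = t x.2}) =>
    exists_children_equiv hstep x.1.1 x.1.2 x.2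
  let F : List (P × ℕ) → List (P × ℕ) := fun l => List.rec []
    (fun c l Fl => if hc : t (top p₀ l) = t (top p₀' Fl) ∧ s c.1 (top p₀ l) then
      (E ⟨(top p₀ l, top p₀' Fl), hc.1⟩ ⟨c, hc.2⟩).1 :: Fl else []) l
  have F_nil : F [] = [] := rfl
  have F_cons : ∀ c l, F (c :: l) = if hc : t (top p₀ l) = t (top p₀' (F l)) ∧ s c.1 (top p₀ l) then
      (E ⟨(top p₀ l, top p₀' (F l)), hc.1⟩ ⟨c, hc.2⟩).1 :: F l else [] := fun c l => rfl
  have inv : ∀ l, Node s p₀ l → Node s p₀' (F l) ∧ t (top p₀ l) = t (top p₀' (F l)) := by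
    intro l
    induction l with
    | nil => intro _; exact ⟨trivial, h⟩
    | cons c l ih =>
      rintro ⟨h1, h2⟩
      obtain ⟨h3, h4⟩ := ih h2
      rw [F_cons, dif_pos ⟨h4, h1⟩]
      refine ⟨⟨(E ⟨(top p₀ l, top p₀' (F l)), h4⟩ ⟨c, h1⟩).2, h3⟩, ?_⟩
      exact (hE ⟨(top p₀ l, top p₀' (F l)), h4⟩ ⟨c, h1⟩).symm
  have F_cons' : ∀ c l, Node s p₀ (c :: l) → ∃ c', F (c :: l) = c' :: F l := by
    rintro c l ⟨h1, h2⟩
    rw [F_cons, dif_pos ⟨(inv l h2).2, h1⟩]
    exact ⟨_, rfl⟩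
  have inj : ∀ l, Node s p₀ l → ∀ m, Node s p₀ m → F l = F m → l = m := by
    intro l
    induction l with
    | nil =>
      intro _ m hm hF
      cases m with
      | nil => rfl
      | cons d m =>
        obtain ⟨c', hc'⟩ := F_cons' d m hm
        rw [F_nil, hc'] at hF
        exact absurd hF (by simp)
    | cons c l ih =>
      intro hl m hm hF
      cases m with
      | nil =>
        obtain ⟨c', hc'⟩ := F_cons' c l hl
        rw [F_nil, hc'] at hF
        exact absurd hF (by simp)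
      | cons d m =>
        obtain ⟨h1, h2⟩ := hl
        obtain ⟨h3, h4⟩ := hm
        have e1 : F l = F m := by
          obtain ⟨c', hc'⟩ := F_cons' c l ⟨h1, h2⟩
          obtain ⟨d', hd'⟩ := F_cons' d m ⟨h3, h4⟩
          rw [hc', hd'] at hF
          exact (List.cons.inj hF).2
        have e2 : l = m := ih h2 m h4 e1
        subst e2
        rw [F_cons, F_cons, dif_pos ⟨(inv l h2).2, h1⟩, dif_pos ⟨(inv l h2).2, h3⟩] at hF
        have e3 := (List.cons.inj hF).1
        have e4 := (E ⟨(top p₀ l, top p₀' (F l)), (inv l h2).2⟩).injective (Subtype.ext e3)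
        have e5 : c = d := congrArg Subtype.val e4
        rw [e5]
  have surj : ∀ m, Node s p₀' m → ∃ l, Node s p₀ l ∧ F l = m := by
    intro m
    induction m with
    | nil => intro _; exact ⟨[], trivial, rfl⟩
    | cons d m ih =>
      rintro ⟨h1, h2⟩
      obtain ⟨l, hl, hlm⟩ := ih h2
      have h3 := (inv l hl).2
      have h4 : s d.1 (top p₀' (F l)) := by rw [hlm]; exact h1
      set c := (E ⟨(top p₀ l, top p₀' (F l)), h3⟩).symm ⟨d, h4⟩ with hc
      refine ⟨c.1 :: l, ⟨c.2, hl⟩, ?_⟩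
      rw [F_cons, dif_pos ⟨h3, c.2⟩]
      have h5 : (E ⟨(top p₀ l, top p₀' (F l)), h3⟩) ⟨c.1, c.2⟩ = ⟨d, h4⟩ := by
        rw [hc]
        simp
      rw [h5]
      exact congrArg (d :: ·) hlm
  refine ⟨F, ⟨fun l hl => (inv l hl).1, ?_, ?_⟩, ?_⟩
  · intro l hl m hm hF
    exact inj l hl m hm hF
  · intro m hm
    obtain ⟨l, hl, hlm⟩ := surj m hm
    exact ⟨l, hl, hlm⟩
  · intro l m hl hm
    constructor
    · rintro ⟨c, rfl⟩
      exact F_cons' c l hm
    · rintro ⟨c, hc⟩
      cases m with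
      | nil => rw [F_nil] at hc; exact absurd hc (by simp)
      | cons d m =>
        obtain ⟨d', hd'⟩ := F_cons' d m hm
        rw [hd'] at hc
        have := inj m hm.2 l hl (List.cons.inj hc).2
        exact ⟨d, by rw [this]⟩

/-- an infinite branch in the tree below `p₀` yields that `p₀` is not accessible -/
theorem not_acc_of_branch {p₀ : P} (x : ℕ → List (P × ℕ))
    (hx : ∀ n, Node s p₀ (x n)) (hx' : ∀ n, ∃ c, x (n + 1) = c :: x n) : ¬ Acc s p₀ := by
  intro h
  have h1 : ∀ l, Node s p₀ l → Acc s (top p₀ l) := by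
    intro l
    induction l with
    | nil => intro _; exact h
    | cons c l ih => rintro ⟨h1, h2⟩; exact (ih h2).inv h1
  have h2 : ∀ n, s (top p₀ (x (n + 1))) (top p₀ (x n)) := by
    intro n
    obtain ⟨c, hc⟩ := hx' n
    have := hx (n + 1)
    rw [hc] at this ⊢
    exact this.1
  have h3 : ∀ a, Acc s a → ∀ n, top p₀ (x n) ≠ a := by
    intro a ha
    induction ha with
    | intro a _ ih =>
      intro n hn
      exact ih _ (hn ▸ h2 n) (n + 1) rfl
  exact h3 _ (h1 _ (hx 0)) 0 rfl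

end Pool.Agent.Lib.MP_dc84f7_lc
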