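import Mathlib
import Pool.Agent.Lib.MP_dc84f7_lc.Defs
import Pool.Agent.Lib.MP_dc84f7_lc.Semi
import Pool.Agent.Lib.MP_dc84f7_lc.Rank
import Pool.Agent.Lib.MP_dc84f7_lc.Tree
import Pool.Agent.Lib.MP_dc84f7_lc.Oracle

/-!
# The structures
-/

set_option autoImplicit false

namespace Pool.Agent.Lib.MP_dc84f7_lc

open Encodable

/-- membership in the `j`-th tree -/
def Tmem (j : ℕ) (σ : List ℕ) : Bool :=
  allBelow (fun i => !(Wt j σ.length (encode (j, σ.take i)))) (σ.length + 1)

abbrev Q := ℕ × List ℕ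

/-- `(j, ρ')` is below `(j, ρ)` if `ρ'` properly extends `ρ` and belongs to the `j`-th tree -/
def qlt (b a : Q) : Prop :=
  b.1 = a.1 ∧ a.2.length < b.2.length ∧ b.2.take a.2.length = a.2 ∧ Tmem b.1 b.2 = true

def qltB (b a : Q) : Bool :=
  (decide (b.1 = a.1) && decide (a.2.length < b.2.length)) &&
    (decide (b.2.take a.2.length = a.2) && Tmem b.1 b.2)

theorem qltB_iff (b a : Q) : qltB b a = true ↔ qlt b a := by
  simp only [qltB, qlt, Bool.and_eq_true, decide_eq_true_eq, and_assoc]

theorem qlt_trans (a b c : Q) (h1 : qlt a b) (h2 : qlt b c) : qlt a c := by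
  obtain ⟨h11, h12, h13, h14⟩ := h1
  obtain ⟨h21, h22, h23, _⟩ := h2
  refine ⟨h11.trans h21, h22.trans h12, ?_, h14⟩
  have h3 : (a.2.take b.2.length).take c.2.length = a.2.take c.2.length := by
    rw [List.take_take, min_eq_left h22.le]
  rw [← h3, h13, h23]

/-- the index set -/
def X : Set ℕ := {e | ∃ f : ℕ → ℕ, ∀ n t, Wt e t (encode (e, restr f n)) = false}

theorem Tmem_iff (j : ℕ) (σ : List ℕ) :
    Tmem j σ = true ↔ ∀ i, i ≤ σ.length → Wt j σ.length (encode (j, σ.take i)) = false := by
  unfold Tmem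
  rw [allBelow_iff]
  constructor
  · intro h i hi
    have := h i (by omega)
    simpa using this
  · intro h i hi
    have := h i (by omega)
    simpa using this

attribute [irreducible] Tmem qltB

theorem not_acc_of_seq {α : Type*} {r : α → α → Prop} (x : ℕ → α) (h : ∀ n, r (x (n + 1)) (x n)) :
    ¬ Acc r (x 0) := by
  have key : ∀ a, Acc r a → ∀ n, x n ≠ a := by
    intro a ha
    induction ha with
    | intro a _ ih =>
      intro n hn
      exact ih _ (hn ▸ h n) (n + 1) rfl
  intro h0
  exact key _ h0 0 rfl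

theorem exists_seq_of_not_acc {α : Type*} {r : α → α → Prop} {a : α} (h : ¬ Acc r a) :
    ∃ x : ℕ → α, x 0 = a ∧ ∀ n, r (x (n + 1)) (x n) := by
  classical
  choose! g hg1 hg2 using fun (a : α) (h : ¬ Acc r a) => exists_below_of_not_acc h
  let x : ℕ → α := fun n => Nat.rec a (fun _ b => g b) n
  have hx : ∀ n, ¬ Acc r (x n) := by
    intro n
    induction n with
    | zero => exact h
    | succ n ih => exact hg2 _ ih
  exact ⟨x, rfl, fun n => hg1 _ (hx n)⟩

theorem not_acc_iff (e : ℕ) : ¬ Acc qlt (e, []) ↔ e ∈ X := by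
  constructor
  · intro h
    obtain ⟨x, hx0, hx⟩ := exists_seq_of_not_acc h
    have h1 : ∀ n, (x n).1 = e := by
      intro n
      induction n with
      | zero => rw [hx0]
      | succ n ih => rw [(hx n).1, ih]
    have hlen : ∀ n, n ≤ (x n).2.length := by
      intro n
      induction n with
      | zero => omega
      | succ n ih => have := (hx n).2.1; omega
    have htake : ∀ n m, n ≤ m → ∀ k, k ≤ (x n).2.length → (x m).2.take k = (x n).2.take k := by
      intro n m hnm
      induction m, hnm using Nat.le_induction with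
      | base => intro k _; rfl
      | succ m hm ih =>
        intro k hk
        have h2 := (hx m).2.2.1
        have h3 : k ≤ (x m).2.length := by
          have : (x n).2.length ≤ (x m).2.length := by
            clear ih h2
            induction m, hm using Nat.le_induction with
            | base => exact le_rfl
            | succ m _ ih => have := (hx m).2.1; omega
          omega
        rw [← ih k hk]
        have h4 : ((x (m + 1)).2.take (x m).2.length).take k = (x m).2.take k := by rw [h2]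
        rw [List.take_take, min_eq_left h3] at h4
        exact h4
    have hget : ∀ i, ∃ v, (x (i + 1)).2[i]? = some v := by
      intro i
      have := hlen (i + 1)
      exact ⟨_, List.getElem?_eq_getElem (by omega)⟩
    choose f hf using hget
    have hrestr : ∀ m n, n ≤ m → (x m).2.take n = restr f n := by
      intro m n hnm
      apply List.ext_getElem?
      intro i
      rcases Nat.lt_or_ge i n with hi | hi
      · rw [restr_getElem? f hi, List.getElem?_take_of_lt hi, ← hf i]
        have h5 := htake (i + 1) m (by omega) (i + 1) (hlen (i + 1))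
        have h6 : ((x m).2.take (i + 1))[i]? = ((x (i + 1)).2.take (i + 1))[i]? := by rw [h5]
        rw [List.getElem?_take_of_lt (Nat.lt_succ_self i), List.getElem?_take_of_lt (Nat.lt_succ_self i)] at h6
        exact h6
      · rw [List.getElem?_eq_none_iff.2, List.getElem?_eq_none_iff.2]
        · simp; omega
        · simp; omega
    refine ⟨f, ?_⟩
    intro n t
    have h7 := (hx (n + t)).2.2.2
    rw [h1, Tmem_iff] at h7
    have h8 := hlen (n + t + 1)
    have h9 := h7 n (by omega)
    rw [hrestr _ _ (by omega)] at h9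
    by_contra hcon
    rw [Bool.not_eq_false] at hcon
    have := Wt_mono (t' := (x (n + t + 1)).2.length) (by omega) hcon
    rw [this] at h9
    exact absurd h9 (by simp)
  · rintro ⟨f, hf⟩
    have h1 : ∀ n, qlt (e, restr f (n + 1)) (e, restr f n) := by
      intro n
      refine ⟨rfl, by simp, ?_, ?_⟩
      · simp only [restr_length]
        exact restr_take f (by omega)
      · rw [Tmem_iff]
        intro i hi
        simp only [restr_length] at hi
        simp only
        rw [restr_take f hi]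
        exact hf _ _
    have := not_acc_of_seq (fun n => ((e, restr f n) : Q)) h1
    simpa [restr] using this

theorem not_acc_root_iff (e : ℕ) : ¬ Acc (Below qlt) [((e, []) : Q)] ↔ e ∈ X := by
  rw [← not_acc_iff]
  constructor
  · intro h h'
    exact h (acc_of_getElem (i := 0) (a := ((e, []) : Q)) rfl h')
  · intro h h'
    obtain ⟨x, hx0, hx⟩ := exists_seq_of_not_acc h
    have h1 : ∀ n, Below qlt [x (n + 1)] [x n] := by
      intro n
      exact ⟨[x (n + 1)], [], by simp, List.Forall₂.cons (hx n) List.Forall₂.nil⟩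
    have := not_acc_of_seq (fun n => [x n]) h1
    rw [hx0] at this
    exact this h'

theorem not_acc_nil : ¬ Acc (Below qlt) ([] : List Q) :=
  not_acc_of_seq (fun _ => []) (fun _ => below_nil _)

/-- the tree structure below `p₀` -/
def S (p₀ : List Q) : Graph where
  dom := {x | ∃ l : List (List Q × ℕ), Node (Below qlt) p₀ l ∧ encode l = x}
  adj := fun x y => ∃ l m : List (List Q × ℕ), (Node (Below qlt) p₀ l ∧ encode l = x) ∧
    (Node (Below qlt) p₀ m ∧ encode m = y) ∧ ∃ c, m = c :: l
  adj_dom := by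
    rintro x y ⟨l, m, hl, hm, _⟩
    exact ⟨⟨l, hl⟩, ⟨m, hm⟩⟩

theorem S_iso {p₀ p₀' : List Q} (h : ¬ Acc (Below qlt) p₀) (h' : ¬ Acc (Below qlt) p₀') :
    ∃ f, IsIso (S p₀) (S p₀') f := by
  classical
  have ht : typ (Below qlt) p₀ = typ (Below qlt) p₀' := by
    rw [typ_of_not_acc h, typ_of_not_acc h']
  obtain ⟨F, hF, hF'⟩ := exists_node_iso (s := Below qlt) (t := typ (Below qlt))
    (fun p p' q hp hq => typ_step qlt_trans hp hq) ht
  let g : ℕ → ℕ := fun x => ((decode (α := List (List Q × ℕ)) x).map (fun l => encode (F l))).getD 0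
  have hg : ∀ l : List (List Q × ℕ), g (encode l) = encode (F l) := by
    intro l; simp [g]
  refine ⟨g, ⟨?_, ?_, ?_⟩, ?_⟩
  · rintro x ⟨l, hl, rfl⟩
    rw [hg]
    exact ⟨F l, hF.mapsTo hl, rfl⟩
  · rintro x ⟨l, hl, rfl⟩ y ⟨m, hm, rfl⟩ hxy
    rw [hg, hg] at hxy
    have := hF.injOn hl hm (encode_injective hxy)
    rw [this]
  · rintro y ⟨m, hm, rfl⟩
    obtain ⟨l, hl, hlm⟩ := hF.surjOn hm
    exact ⟨encode l, ⟨l, hl, rfl⟩, by rw [hg, hlm]⟩
  · rintro x ⟨l, hl, rfl⟩ y ⟨m, hm, rfl⟩
    rw [hg, hg]
    constructor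
    · rintro ⟨l', m', ⟨_, h1⟩, ⟨_, h2⟩, h3⟩
      rw [encode_injective h1, encode_injective h2] at h3
      exact ⟨F l, F m, ⟨hF.mapsTo hl, rfl⟩, ⟨hF.mapsTo hm, rfl⟩, (hF' l m hl hm).1 h3⟩
    · rintro ⟨l', m', ⟨_, h1⟩, ⟨_, h2⟩, h3⟩
      rw [encode_injective h1, encode_injective h2] at h3
      exact ⟨l, m, ⟨hl, rfl⟩, ⟨hm, rfl⟩, (hF' l m hl hm).2 h3⟩

theorem S_not_iso {p₀ : List Q} (h : Acc (Below qlt) p₀) : ¬ ∃ f, IsIso (S []) (S p₀) f := by
  rintro ⟨f, hf1, hf2⟩
  -- the branch through the empty list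
  let b : ℕ → List (List Q × ℕ) := fun n => List.replicate n ([], 0)
  have hb : ∀ n, Node (Below qlt) [] (b n) := by
    intro n
    induction n with
    | zero => trivial
    | succ n ih =>
      refine ⟨?_, ih⟩
      have : top ([] : List Q) (b n) = [] := by cases n <;> rfl
      rw [show (List.replicate n (([], 0) : List Q × ℕ)) = b n from rfl, this]
      exact below_nil _
  have h1 : ∀ n, encode (b n) ∈ (S []).dom := fun n => ⟨b n, hb n, rfl⟩
  have h2 : ∀ n, (S []).adj (encode (b n)) (encode (b (n + 1))) := fun n =>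
    ⟨b n, b (n + 1), ⟨hb n, rfl⟩, ⟨hb (n + 1), rfl⟩, ([], 0), rfl⟩
  have h3 : ∀ n, ∃ l : List (List Q × ℕ), Node (Below qlt) p₀ l ∧ encode l = f (encode (b n)) :=
    fun n => hf1.mapsTo (h1 n)
  choose x hx1 hx2 using h3
  refine not_acc_of_branch (s := Below qlt) (p₀ := p₀) x hx1 ?_ h
  intro n
  obtain ⟨l, m, ⟨_, h4⟩, ⟨_, h5⟩, h6⟩ := (hf2 _ (h1 n) _ (h1 (n + 1))).1 (h2 n)
  rw [← hx2] at h4 h5
  rw [encode_injective h4, encode_injective h5] at h6
  exact h6

end Pool.Agent.Lib.MP_dc84f7_lc
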