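import Mathlib
import Pool.Agent.Lib.MP_dc84f7_lc.Struct

/-!
# The structures are uniformly computable
-/

set_option autoImplicit false

namespace Pool.Agent.Lib.MP_dc84f7_lc

open Encodable

theorem and_comp {α : Type*} [Primcodable α] {f g : α → Bool} (hf : Computable f) (hg : Computable g) :
    Computable (fun a => f a && g a) :=
  (Primrec₂.to_comp Primrec.and).comp hf hg

theorem not_comp {α : Type*} [Primcodable α] {f : α → Bool} (hf : Computable f) :
    Computable (fun a => !(f a)) :=
  (Primrec.to_comp Primrec.not).comp hf

theorem or_comp {α : Type*} [Primcodable α] {f g : α → Bool} (hf : Computable f) (hg : Computable g) :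
    Computable (fun a => f a || g a) :=
  (Primrec₂.to_comp Primrec.or).comp hf hg

theorem eq_comp {α β : Type*} [Primcodable α] [Primcodable β] [DecidableEq β] {f g : α → β}
    (hf : Computable f) (hg : Computable g) : Computable (fun a => decide (f a = g a)) := by
  have h : PrimrecRel (fun a b : β => a = b) := Primrec.eq
  exact (Primrec₂.to_comp h.decide).comp hf hg

theorem lt_comp {α : Type*} [Primcodable α] {f g : α → ℕ}
    (hf : Computable f) (hg : Computable g) : Computable (fun a => decide (f a < g a)) := by
  have h : PrimrecRel (fun a b : ℕ => a < b) := Primrec.nat_lt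
  exact (Primrec₂.to_comp h.decide).comp hf hg

theorem le_comp {α : Type*} [Primcodable α] {f g : α → ℕ}
    (hf : Computable f) (hg : Computable g) : Computable (fun a => decide (f a ≤ g a)) := by
  have h : PrimrecRel (fun a b : ℕ => a ≤ b) := Primrec.nat_le
  exact (Primrec₂.to_comp h.decide).comp hf hg

theorem take_comp {α β : Type*} [Primcodable α] [Primcodable β] {f : α → ℕ} {g : α → List β}
    (hf : Computable f) (hg : Computable g) : Computable (fun a => (g a).take (f a)) :=
  (Primrec₂.to_comp Primrec.list_take).comp hf hg

/-- composition with a binary function, in a form friendly to the elaborator -/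
theorem comp_two {α β γ σ : Type*} [Primcodable α] [Primcodable β] [Primcodable γ] [Primcodable σ]
    {F : β → γ → σ} (hF : Computable (fun x : β × γ => F x.1 x.2)) {f : α → β} {g : α → γ}
    (hf : Computable f) (hg : Computable g) : Computable (fun a => F (f a) (g a)) :=
  Computable.comp (f := fun x : β × γ => F x.1 x.2) (g := fun a => (f a, g a)) hF (hf.pair hg)

theorem getElem?_comp {α β : Type*} [Primcodable α] [Primcodable β] {f : α → List β} {g : α → ℕ}
    (hf : Computable f) (hg : Computable g) : Computable (fun a => ((f a)[g a]? : Option β)) :=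
  comp_two (F := fun (l : List β) (n : ℕ) => (l[n]? : Option β)) Computable.list_getElem? hf hg

theorem Tmem_comp : Computable (fun x : ℕ × List ℕ => Tmem x.1 x.2) := by
  have h1 : Computable (fun y : (ℕ × List ℕ) × ℕ => encode (y.1.1, y.1.2.take y.2)) := by
    refine Computable.encode.comp (Computable.pair (Computable.fst.comp Computable.fst) ?_)
    exact take_comp Computable.snd (Computable.snd.comp Computable.fst)
  have h2 : Computable (fun y : (ℕ × List ℕ) × ℕ =>
      Wt y.1.1 y.1.2.length (encode (y.1.1, y.1.2.take y.2))) := by
    have h3 : Computable (fun y : (ℕ × List ℕ) × ℕ =>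
        (y.1.1, y.1.2.length, encode (y.1.1, y.1.2.take y.2))) :=
      (Computable.fst.comp Computable.fst).pair
        ((Computable.list_length.comp (Computable.snd.comp Computable.fst)).pair h1)
    exact (Primrec.to_comp Wt_primrec).comp h3
  have h4 : Computable₂ (fun (x : ℕ × List ℕ) (i : ℕ) =>
      !(Wt x.1 x.2.length (encode (x.1, x.2.take i)))) := (not_comp h2).to₂
  have h5 := (computable_allBelow h4).comp Computable.id
    (Computable.succ.comp (Computable.list_length.comp Computable.snd))
  refine h5.of_eq ?_
  intro x
  rw [Tmem]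
  rfl

theorem qltB_comp : Computable (fun x : Q × Q => qltB x.1 x.2) := by
  have b1 : Computable (fun x : Q × Q => x.1.1) := Computable.fst.comp Computable.fst
  have b2 : Computable (fun x : Q × Q => x.1.2) := Computable.snd.comp Computable.fst
  have a1 : Computable (fun x : Q × Q => x.2.1) := Computable.fst.comp Computable.snd
  have a2 : Computable (fun x : Q × Q => x.2.2) := Computable.snd.comp Computable.snd
  have al : Computable (fun x : Q × Q => x.2.2.length) := Computable.list_length.comp a2
  have bl : Computable (fun x : Q × Q => x.1.2.length) := Computable.list_length.comp b2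
  have t1 : Computable (fun x : Q × Q => x.1.2.take x.2.2.length) := take_comp al b2
  have t2 : Computable (fun x : Q × Q => Tmem x.1.1 x.1.2) := comp_two Tmem_comp b1 b2
  have h := and_comp (and_comp (eq_comp b1 a1) (lt_comp al bl)) (and_comp (eq_comp t1 a2) t2)
  refine h.of_eq ?_
  intro x
  rw [qltB]

/-- decision procedure for `Below qlt` -/
def belowB (q p : List Q) : Bool :=
  decide (p.length ≤ q.length) &&
    allBelow (fun i => (((q[i]? : Option Q).bind fun b => (p[i]? : Option Q).map fun a => qltB b a)).getD false)
      p.length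

theorem belowB_iff (q p : List Q) : belowB q p = true ↔ Below qlt q p := by
  unfold belowB
  rw [Bool.and_eq_true, decide_eq_true_eq, allBelow_iff]
  constructor
  · rintro ⟨h1, h2⟩
    refine ⟨q.take p.length, q.drop p.length, (List.take_append_drop _ _).symm, ?_⟩
    rw [List.forall₂_iff_get]
    refine ⟨by simp [h1], ?_⟩
    intro i hi1 hi2
    have h3 := h2 i hi2
    have hq : i < q.length := by omega
    rw [List.getElem?_eq_getElem hq, List.getElem?_eq_getElem hi2] at h3
    simp only [Option.bind_some, Option.map_some, Option.getD_some, qltB_iff] at h3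
    simpa using h3
  · rintro ⟨q₁, q₂, rfl, h⟩
    have hl := h.length_eq
    refine ⟨by simp [hl], ?_⟩
    intro i hi
    have hi' : i < q₁.length := by omega
    rw [List.getElem?_append_left hi', List.getElem?_eq_getElem hi', List.getElem?_eq_getElem hi]
    simp only [Option.bind_some, Option.map_some, Option.getD_some, qltB_iff]
    have := (List.forall₂_iff_get.1 h).2 i hi' hi
    simpa using this

attribute [irreducible] belowB

theorem belowB_comp : Computable (fun x : List Q × List Q => belowB x.1 x.2) := by
  have lp : Computable (fun x : List Q × List Q => x.2.length) := Computable.list_length.comp Computable.snd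
  have lq : Computable (fun x : List Q × List Q => x.1.length) := Computable.list_length.comp Computable.fst
  have g1 : Computable (fun y : (List Q × List Q) × ℕ => (y.1.1[y.2]? : Option Q)) :=
    getElem?_comp (Computable.fst.comp Computable.fst) Computable.snd
  have g2 : Computable (fun y : (List Q × List Q) × ℕ => (y.1.2[y.2]? : Option Q)) :=
    getElem?_comp (Computable.snd.comp Computable.fst) Computable.snd
  have g3 : Computable (fun z : (((List Q × List Q) × ℕ) × Q) × Q => qltB z.1.2 z.2) :=
    comp_two qltB_comp (Computable.snd.comp Computable.fst) Computable.snd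
  have g4 : Computable (fun z : ((List Q × List Q) × ℕ) × Q =>
      (z.1.1.2[z.1.2]? : Option Q).map fun a => qltB z.2 a) :=
    Computable.option_map (g2.comp Computable.fst) g3.to₂
  have g5 : Computable (fun y : (List Q × List Q) × ℕ =>
      (y.1.1[y.2]? : Option Q).bind fun b => (y.1.2[y.2]? : Option Q).map fun a => qltB b a) :=
    Computable.option_bind g1 g4.to₂
  have g6 : Computable (fun y : (List Q × List Q) × ℕ =>
      ((y.1.1[y.2]? : Option Q).bind fun b => (y.1.2[y.2]? : Option Q).map fun a => qltB b a).getD false) :=
    Computable.option_getD g5 (Computable.const false)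
  have g7 : Computable₂ (fun (x : List Q × List Q) (i : ℕ) =>
      ((x.1[i]? : Option Q).bind fun b => (x.2[i]? : Option Q).map fun a => qltB b a).getD false) := g6.to₂
  have g8 := (computable_allBelow g7).comp Computable.id lp
  have g9 := and_comp (le_comp lp lq) g8
  refine g9.of_eq ?_
  intro x
  rw [belowB]
  rfl

/-- decision procedure for `Node (Below qlt)` -/
def nodeB (p₀ : List Q) (l : List (List Q × ℕ)) : Bool :=
  allBelow (fun i => ((l[i]? : Option (List Q × ℕ)).map fun c =>
    belowB c.1 (((l[i + 1]? : Option (List Q × ℕ)).map Prod.fst).getD p₀)).getD false) l.length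

theorem nodeB_iff (p₀ : List Q) (l : List (List Q × ℕ)) :
    nodeB p₀ l = true ↔ Node (Below qlt) p₀ l := by
  unfold nodeB
  rw [allBelow_iff]
  induction l with
  | nil => simp [Node]
  | cons c l ih =>
    have htop : top p₀ l = ((((c :: l : List (List Q × ℕ))[0 + 1]? : Option (List Q × ℕ)).map Prod.fst).getD p₀) := by
      cases l with
      | nil => rfl
      | cons d l => rfl
    have e0 : Node (Below qlt) p₀ (c :: l) ↔ Below qlt c.1 (top p₀ l) ∧ Node (Below qlt) p₀ l := Iff.rfl
    rw [e0, ← ih]
    constructor
    · intro h
      constructor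
      · have := h 0 (by simp)
        rw [htop]
        simpa [belowB_iff] using this
      · intro i hi
        have := h (i + 1) (by simp; omega)
        simpa using this
    · rintro ⟨h1, h2⟩ i hi
      cases i with
      | zero =>
        rw [htop] at h1
        simpa [belowB_iff] using h1
      | succ i =>
        have := h2 i (by simpa using hi)
        simpa using this

attribute [irreducible] nodeB

theorem nodeB_comp : Computable (fun x : List Q × List (List Q × ℕ) => nodeB x.1 x.2) := by
  have g1 : Computable (fun y : (List Q × List (List Q × ℕ)) × ℕ => (y.1.2[y.2]? : Option (List Q × ℕ))) :=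
    getElem?_comp (Computable.snd.comp Computable.fst) Computable.snd
  have g2 : Computable (fun y : (List Q × List (List Q × ℕ)) × ℕ =>
      (y.1.2[y.2 + 1]? : Option (List Q × ℕ))) :=
    getElem?_comp (Computable.snd.comp Computable.fst) (Computable.succ.comp Computable.snd)
  have g3 : Computable₂ (fun (_ : (List Q × List (List Q × ℕ)) × ℕ) (c : List Q × ℕ) => c.1) :=
    (Computable.fst.comp Computable.snd).to₂
  have g4 : Computable (fun y : (List Q × List (List Q × ℕ)) × ℕ =>
      ((y.1.2[y.2 + 1]? : Option (List Q × ℕ)).map Prod.fst)) := Computable.option_map g2 g3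
  have g5 : Computable (fun y : (List Q × List (List Q × ℕ)) × ℕ =>
      ((y.1.2[y.2 + 1]? : Option (List Q × ℕ)).map Prod.fst).getD y.1.1) :=
    Computable.option_getD g4 (Computable.fst.comp Computable.fst)
  have g6 : Computable (fun z : ((List Q × List (List Q × ℕ)) × ℕ) × (List Q × ℕ) =>
      belowB z.2.1 (((z.1.1.2[z.1.2 + 1]? : Option (List Q × ℕ)).map Prod.fst).getD z.1.1.1)) :=
    comp_two belowB_comp (Computable.fst.comp Computable.snd) (g5.comp Computable.fst)
  have g7 : Computable (fun y : (List Q × List (List Q × ℕ)) × ℕ =>
      (y.1.2[y.2]? : Option (List Q × ℕ)).map fun c =>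
        belowB c.1 (((y.1.2[y.2 + 1]? : Option (List Q × ℕ)).map Prod.fst).getD y.1.1)) :=
    Computable.option_map g1 g6.to₂
  have g8 : Computable (fun y : (List Q × List (List Q × ℕ)) × ℕ =>
      ((y.1.2[y.2]? : Option (List Q × ℕ)).map fun c =>
        belowB c.1 (((y.1.2[y.2 + 1]? : Option (List Q × ℕ)).map Prod.fst).getD y.1.1)).getD false) :=
    Computable.option_getD g7 (Computable.const false)
  have g9 : Computable₂ (fun (x : List Q × List (List Q × ℕ)) (i : ℕ) =>
      ((x.2[i]? : Option (List Q × ℕ)).map fun c =>
        belowB c.1 (((x.2[i + 1]? : Option (List Q × ℕ)).map Prod.fst).getD x.1)).getD false) := g8.to₂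
  have g10 := (computable_allBelow g9).comp Computable.id (Computable.list_length.comp Computable.snd)
  refine g10.of_eq ?_
  intro x
  rw [nodeB]
  rfl

/-- decision procedure for the universe -/
def domB (p₀ : List Q) (x : ℕ) : Bool :=
  ((decode (α := List (List Q × ℕ)) x).map fun l => nodeB p₀ l && decide (encode l = x)).getD false

theorem domB_iff (p₀ : List Q) (x : ℕ) : domB p₀ x = true ↔ x ∈ (S p₀).dom := by
  unfold domB
  constructor
  · intro h
    cases hd : decode (α := List (List Q × ℕ)) x with
    | none => rw [hd] at h; simp at h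
    | some l =>
      rw [hd] at h
      simp only [Option.map_some, Option.getD_some, Bool.and_eq_true, decide_eq_true_eq, nodeB_iff] at h
      exact ⟨l, h⟩
  · rintro ⟨l, h1, rfl⟩
    rw [encodek]
    simp only [Option.map_some, Option.getD_some, Bool.and_eq_true, decide_eq_true_eq, nodeB_iff]
    exact ⟨h1, trivial⟩

attribute [irreducible] domB

theorem domB_comp : Computable (fun x : List Q × ℕ => domB x.1 x.2) := by
  have g1 : Computable (fun x : List Q × ℕ => decode (α := List (List Q × ℕ)) x.2) :=
    Computable.decode.comp Computable.snd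
  have g2 : Computable (fun y : (List Q × ℕ) × List (List Q × ℕ) => nodeB y.1.1 y.2) :=
    comp_two nodeB_comp (Computable.fst.comp Computable.fst) Computable.snd
  have g3 : Computable (fun y : (List Q × ℕ) × List (List Q × ℕ) => decide (encode y.2 = y.1.2)) :=
    eq_comp (Computable.encode.comp Computable.snd) (Computable.snd.comp Computable.fst)
  have g4 : Computable (fun x : List Q × ℕ =>
      (decode (α := List (List Q × ℕ)) x.2).map fun l => nodeB x.1 l && decide (encode l = x.2)) :=
    Computable.option_map g1 (and_comp g2 g3).to₂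
  have g5 := Computable.option_getD g4 (Computable.const false)
  refine g5.of_eq ?_
  intro x
  rw [domB]

/-- decision procedure for `∃ c, m = c :: l` in terms of codes -/
def consB (x y : ℕ) : Bool :=
  ((decode (α := List (List Q × ℕ)) x).bind fun l => (decode (α := List (List Q × ℕ)) y).map fun m =>
    decide (encode m.tail = encode l) && decide (0 < m.length)).getD false

theorem consB_iff (l m : List (List Q × ℕ)) : consB (encode l) (encode m) = true ↔ ∃ c, m = c :: l := by
  unfold consB
  rw [encodek, encodek]
  simp only [Option.bind_some, Option.map_some, Option.getD_some, Bool.and_eq_true, decide_eq_true_eq]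
  constructor
  · rintro ⟨h1, h2⟩
    cases m with
    | nil => simp at h2
    | cons c m => exact ⟨c, by rw [← encode_injective h1]; rfl⟩
  · rintro ⟨c, rfl⟩
    simp

attribute [irreducible] consB

theorem consB_comp : Computable (fun x : ℕ × ℕ => consB x.1 x.2) := by
  have g1 : Computable (fun x : ℕ × ℕ => decode (α := List (List Q × ℕ)) x.1) :=
    Computable.decode.comp Computable.fst
  have g2 : Computable (fun x : ℕ × ℕ => decode (α := List (List Q × ℕ)) x.2) :=
    Computable.decode.comp Computable.snd
  have tl : Computable (fun z : ((ℕ × ℕ) × List (List Q × ℕ)) × List (List Q × ℕ) => z.2.tail) :=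
    (Primrec.to_comp Primrec.list_tail).comp Computable.snd
  have g3 : Computable (fun z : ((ℕ × ℕ) × List (List Q × ℕ)) × List (List Q × ℕ) =>
      decide (encode z.2.tail = encode z.1.2)) :=
    eq_comp (Computable.encode.comp tl) (Computable.encode.comp (Computable.snd.comp Computable.fst))
  have g4 : Computable (fun z : ((ℕ × ℕ) × List (List Q × ℕ)) × List (List Q × ℕ) =>
      decide (0 < z.2.length)) :=
    lt_comp (Computable.const 0) (Computable.list_length.comp Computable.snd)
  have g5 : Computable (fun y : (ℕ × ℕ) × List (List Q × ℕ) =>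
      (decode (α := List (List Q × ℕ)) y.1.2).map fun m =>
        decide (encode m.tail = encode y.2) && decide (0 < m.length)) :=
    Computable.option_map (g2.comp Computable.fst) (and_comp g3 g4).to₂
  have g6 : Computable (fun x : ℕ × ℕ =>
      (decode (α := List (List Q × ℕ)) x.1).bind fun l => (decode (α := List (List Q × ℕ)) x.2).map fun m =>
        decide (encode m.tail = encode l) && decide (0 < m.length)) :=
    Computable.option_bind g1 g5.to₂
  have g7 := Computable.option_getD g6 (Computable.const false)
  refine g7.of_eq ?_
  intro x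
  rw [consB]

theorem adj_iff (p₀ : List Q) (x y : ℕ) :
    ((domB p₀ x && domB p₀ y) && consB x y) = true ↔ (S p₀).adj x y := by
  rw [Bool.and_eq_true, Bool.and_eq_true, domB_iff, domB_iff]
  constructor
  · rintro ⟨⟨⟨l, hl, rfl⟩, ⟨m, hm, rfl⟩⟩, h⟩
    exact ⟨l, m, ⟨hl, rfl⟩, ⟨hm, rfl⟩, (consB_iff l m).1 h⟩
  · rintro ⟨l, m, ⟨hl, rfl⟩, ⟨hm, rfl⟩, h⟩
    exact ⟨⟨⟨l, hl, rfl⟩, ⟨m, hm, rfl⟩⟩, (consB_iff l m).2 h⟩

/-- the diagram of `S p₀` as a computable function -/
def diagB (p₀ : List Q) (n : ℕ) : Bool :=
  (decide (n.unpair.1 = 0) && (domB p₀ n.unpair.2.unpair.1 && decide (n.unpair.2.unpair.1 = n.unpair.2.unpair.2))) ||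
    (decide (n.unpair.1 = 1) &&
      ((domB p₀ n.unpair.2.unpair.1 && domB p₀ n.unpair.2.unpair.2) &&
        consB n.unpair.2.unpair.1 n.unpair.2.unpair.2))

theorem diagB_comp : Computable (fun x : List Q × ℕ => diagB x.1 x.2) := by
  have u1 : Computable (fun x : List Q × ℕ => x.2.unpair.1) :=
    Computable.fst.comp (Computable.unpair.comp Computable.snd)
  have u2 : Computable (fun x : List Q × ℕ => x.2.unpair.2) :=
    Computable.snd.comp (Computable.unpair.comp Computable.snd)
  have u21 : Computable (fun x : List Q × ℕ => x.2.unpair.2.unpair.1) :=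
    Computable.fst.comp (Computable.unpair.comp u2)
  have u22 : Computable (fun x : List Q × ℕ => x.2.unpair.2.unpair.2) :=
    Computable.snd.comp (Computable.unpair.comp u2)
  have d1 : Computable (fun x : List Q × ℕ => domB x.1 x.2.unpair.2.unpair.1) :=
    comp_two domB_comp Computable.fst u21
  have d2 : Computable (fun x : List Q × ℕ => domB x.1 x.2.unpair.2.unpair.2) :=
    comp_two domB_comp Computable.fst u22
  have d3 : Computable (fun x : List Q × ℕ => consB x.2.unpair.2.unpair.1 x.2.unpair.2.unpair.2) :=
    comp_two consB_comp u21 u22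
  exact or_comp
    (and_comp (eq_comp u1 (Computable.const 0)) (and_comp d1 (eq_comp u21 u22)))
    (and_comp (eq_comp u1 (Computable.const 1)) (and_comp (and_comp d1 d2) d3))

theorem diag_eq (p₀ : List Q) (n : ℕ) : (S p₀).diag n = (diagB p₀ n).toNat := by
  unfold Graph.diag diagB
  have h1 := domB_iff p₀ n.unpair.2.unpair.1
  have h2 := adj_iff p₀ n.unpair.2.unpair.1 n.unpair.2.unpair.2
  rw [← h1, ← h2]
  by_cases h : (decide (n.unpair.1 = 0) && (domB p₀ n.unpair.2.unpair.1 && decide (n.unpair.2.unpair.1 = n.unpair.2.unpair.2)) ||
    (decide (n.unpair.1 = 1) &&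
      ((domB p₀ n.unpair.2.unpair.1 && domB p₀ n.unpair.2.unpair.2) &&
        consB n.unpair.2.unpair.1 n.unpair.2.unpair.2))) = true
  · rw [h, if_pos]
    · rfl
    · simpa using h
  · rw [if_neg]
    · rw [Bool.not_eq_true] at h
      rw [h]; rfl
    · simpa using h

theorem diag_comp : Computable (fun x : List Q × ℕ => (S x.1).diag x.2) := by
  have h : Computable (fun x : List Q × ℕ => (diagB x.1 x.2).toNat) := by
    have h1 : Primrec (fun b : Bool => b.toNat) := Primrec.dom_finite _
    exact (Primrec.to_comp h1).comp diagB_comp
  exact h.of_eq (fun x => (diag_eq x.1 x.2).symm)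

/-- a computable index function -/
theorem exists_idx : ∃ idx : ℕ → ℕ, Computable idx ∧ ∀ e, IsIndex (idx e) (S [((e, []) : Q)]) := by
  have h3 : Computable (fun n : ℕ => ((n.unpair.1, []) : Q)) :=
    (Computable.fst.comp Computable.unpair).pair (Computable.const [])
  have h4 : Computable (fun n : ℕ => [((n.unpair.1, []) : Q)]) :=
    Computable.list_cons.comp h3 (Computable.const [])
  have h1 : Computable (fun n : ℕ => (S [((n.unpair.1, []) : Q)]).diag n.unpair.2) :=
    comp_two (F := fun p n => (S p).diag n) diag_comp h4 (Computable.snd.comp Computable.unpair)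
  obtain ⟨c, hc⟩ := Nat.Partrec.Code.exists_code.1 (Partrec.nat_iff.1 h1)
  refine ⟨fun e => encode (c.curry e), ?_, ?_⟩
  · exact Computable.encode.comp ((Primrec₂.to_comp Nat.Partrec.Code.primrec₂_curry).comp
      (Computable.const c) Computable.id)
  · intro e n
    unfold phi
    rw [Denumerable.ofNat_encode, Nat.Partrec.Code.eval_curry, hc]
    simp

end Pool.Agent.Lib.MP_dc84f7_lc
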