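import Mathlib
import Pool.Agent.Lib.MP_dc84f7_lc.StructComp

/-!
# `Σ¹₁` predicates and forcing conditions
-/

set_option autoImplicit false

namespace Pool.Agent.Lib.MP_dc84f7_lc

open Encodable

variable {α : Type*} [Primcodable α]

/-- `Σ¹₁` predicates -/
def Sig (P : α → Prop) : Prop :=
  ∃ V : α × List ℕ → Prop, SD V ∧ ∀ a, P a ↔ ∃ f : ℕ → ℕ, ∀ k, ¬ V (a, restr f k)

theorem not_sig_compl_X : ¬ Sig (fun e : ℕ => e ∉ X) := by
  rintro ⟨V, hV, h⟩
  obtain ⟨e, he⟩ := hV.exists_index
  have h1 : e ∈ X ↔ ∃ f : ℕ → ℕ, ∀ k, ¬ V (e, restr f k) := by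
    constructor
    · rintro ⟨f, hf⟩
      refine ⟨f, fun k hk => ?_⟩
      obtain ⟨t, ht⟩ := (he _).1 hk
      rw [hf k t] at ht
      exact absurd ht (by simp)
    · rintro ⟨f, hf⟩
      refine ⟨f, fun n t => ?_⟩
      by_contra hcon
      rw [Bool.not_eq_false] at hcon
      exact hf n ((he _).2 ⟨t, hcon⟩)
  have h2 := h e
  tauto

theorem restr_succ_cons (f : ℕ → ℕ) (k : ℕ) : restr f (k + 1) = f 0 :: restr (fun i => f (i + 1)) k := by
  unfold restr
  rw [List.range_succ_eq_map, List.map_cons, List.map_map]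
  rfl

theorem Sig.ex_nat {V : α × ℕ × List ℕ → Prop} (hV : SD V) :
    Sig (fun a => ∃ c, ∃ f : ℕ → ℕ, ∀ k, ¬ V (a, c, restr f k)) := by
  have c1 : Computable (fun x : α × List ℕ => (x.1, x.2.headI, x.2.tail)) :=
    Computable.fst.pair (((Primrec.to_comp Primrec.list_headI).comp Computable.snd).pair
      ((Primrec.to_comp Primrec.list_tail).comp Computable.snd))
  have c2 : Computable (fun x : α × List ℕ => decide (0 < x.2.length)) :=
    lt_comp (Computable.const 0) (Computable.list_length.comp Computable.snd)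
  refine ⟨fun x => 0 < x.2.length ∧ V (x.1, x.2.headI, x.2.tail), ?_, ?_⟩
  · exact (SD.of_computablePred c2).and (hV.comp c1)
  · intro a
    constructor
    · rintro ⟨c, f, h⟩
      refine ⟨fun i => Nat.casesOn i c f, ?_⟩
      intro k
      cases k with
      | zero => rintro ⟨h1, _⟩; simp at h1
      | succ k =>
        rintro ⟨_, h2⟩
        rw [restr_succ_cons] at h2
        exact h k h2
    · rintro ⟨f, h⟩
      refine ⟨f 0, fun i => f (i + 1), ?_⟩
      intro k hk
      refine h (k + 1) ⟨by simp, ?_⟩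
      simp only [restr_succ_cons]
      exact hk

theorem Sig.of_iff {P P' : α → Prop} (h : Sig P) (hP : ∀ a, P' a ↔ P a) : Sig P' := by
  obtain ⟨V, hV, h⟩ := h
  exact ⟨V, hV, fun a => (hP a).trans (h a)⟩

theorem Sig.or {P P' : α → Prop} (hP : Sig P) (hQ : Sig P') : Sig (fun a => P a ∨ P' a) := by
  obtain ⟨V, hV, h⟩ := hP
  obtain ⟨W, hW, h'⟩ := hQ
  have c1 : Computable (fun x : α × ℕ × List ℕ => (x.1, x.2.2)) :=
    Computable.fst.pair (Computable.snd.comp Computable.snd)
  have c2 : Computable (fun x : α × ℕ × List ℕ => decide (x.2.1 = 0)) :=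
    eq_comp (Computable.fst.comp Computable.snd) (Computable.const 0)
  have c3 : Computable (fun x : α × ℕ × List ℕ => decide (0 < x.2.1)) :=
    lt_comp (Computable.const 0) (Computable.fst.comp Computable.snd)
  have key := Sig.ex_nat (V := fun x : α × ℕ × List ℕ =>
    (x.2.1 = 0 ∧ V (x.1, x.2.2)) ∨ (0 < x.2.1 ∧ W (x.1, x.2.2)))
    (((SD.of_computablePred c2).and (hV.comp c1)).or ((SD.of_computablePred c3).and (hW.comp c1)))
  refine key.of_iff ?_
  intro a
  rw [h, h']
  constructor
  · rintro (⟨f, hf⟩ | ⟨f, hf⟩)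
    · refine ⟨0, f, ?_⟩
      rintro k (⟨_, h2⟩ | ⟨h1, _⟩)
      · exact hf k h2
      · exact absurd h1 (by simp)
    · refine ⟨1, f, ?_⟩
      rintro k (⟨h1, _⟩ | ⟨_, h2⟩)
      · exact absurd h1 (by simp)
      · exact hf k h2
  · rintro ⟨c, f, hf⟩
    rcases Nat.eq_zero_or_pos c with hc | hc
    · exact Or.inl ⟨f, fun k hk => hf k (Or.inl ⟨hc, hk⟩)⟩
    · exact Or.inr ⟨f, fun k hk => hf k (Or.inr ⟨hc, hk⟩)⟩

/-- Forcing conditions: an effectively closed set and a finite sequence `s`, such that above `s`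
the closed set does not restrict the columns from `m` on. -/
structure Cond where
  V : List ℕ → Prop
  s : List ℕ
  m : ℕ
  sd : SD V
  ne : ∃ z : ℕ → ℕ, (∀ k, ¬ V (restr z k)) ∧ restr z s.length = s
  inv : ∀ z z' : ℕ → ℕ, (∀ k, ¬ V (restr z k)) → restr z s.length = s → restr z' s.length = s →
    (∀ p : ℕ, p.unpair.1 < m → z' p = z p) → ∀ k, ¬ V (restr z' k)

def Cond.set (p : Cond) : Set (ℕ → ℕ) :=
  {z | (∀ k, ¬ p.V (restr z k)) ∧ restr z p.s.length = p.s}

/-- extending the finite sequence along an element of the closed set -/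
def Cond.extend (p : Cond) (z : ℕ → ℕ) (hz : z ∈ p.set) (k : ℕ) (hk : p.s.length ≤ k) : Cond where
  V := p.V
  s := restr z k
  m := p.m
  sd := p.sd
  ne := ⟨z, hz.1, by simp⟩
  inv := by
    intro z1 z2 h1 h2 h3 h4
    have key : ∀ z' : ℕ → ℕ, restr z' (restr z k).length = restr z k → restr z' p.s.length = p.s := by
      intro z' h
      rw [restr_length] at h
      rw [← restr_take z' hk, h, restr_take z hk]
      exact hz.2
    exact p.inv z1 z2 h1 (key _ h2) (key _ h3) h4

theorem Cond.extend_subset (p : Cond) (z : ℕ → ℕ) (hz : z ∈ p.set) (k : ℕ) (hk : p.s.length ≤ k) :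
    (p.extend z hz k hk).set ⊆ p.set := by
  intro z' hz'
  refine ⟨hz'.1, ?_⟩
  have h : restr z' k = restr z k := by
    have := hz'.2
    simpa [Cond.extend] using this
  rw [← restr_take z' hk, h, restr_take z hk]
  exact hz.2

theorem exists_generic {ι : Type*} [Countable ι] (R : ι → Set (ℕ → ℕ))
    (hR : ∀ i (p : Cond), ∃ q : Cond, q.set ⊆ p.set ∧ q.set ⊆ R i) (p₀ : Cond) :
    ∃ D : ℕ → ℕ, ∀ i, D ∈ R i := by
  classical
  have step : ∀ (n : ℕ) (o : Option ι) (p : Cond), ∃ q : Cond, q.set ⊆ p.set ∧ n ≤ q.s.length ∧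
      ∀ i, o = some i → q.set ⊆ R i := by
    intro n o p
    obtain ⟨q, hq, hq'⟩ : ∃ q : Cond, q.set ⊆ p.set ∧ ∀ i, o = some i → q.set ⊆ R i := by
      cases o with
      | none => exact ⟨p, subset_rfl, by simp⟩
      | some i =>
        obtain ⟨q, h1, h2⟩ := hR i p
        refine ⟨q, h1, ?_⟩
        intro j hj
        rw [← Option.some.inj hj]
        exact h2
    obtain ⟨z, hz⟩ := q.ne
    refine ⟨q.extend z hz (max n q.s.length) (le_max_right _ _),
      (q.extend_subset z hz _ _).trans hq, ?_, ?_⟩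
    · simp [Cond.extend]
    · intro i hi
      exact (q.extend_subset z hz _ _).trans (hq' i hi)
  choose g hg1 hg2 hg3 using step
  obtain ⟨e, he⟩ := Countable.exists_injective_nat ι
  let o : ℕ → Option ι := fun n => if h : ∃ i, e i = n then some h.choose else none
  have ho : ∀ i, o (e i) = some i := by
    intro i
    have h : ∃ j, e j = e i := ⟨i, rfl⟩
    simp only [o, dif_pos h]
    rw [he h.choose_spec]
  let q : ℕ → Cond := fun n => Nat.rec p₀ (fun n p => g (n + 1) (o n) p) n
  have hq : ∀ n, q (n + 1) = g (n + 1) (o n) (q n) := fun n => rfl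
  have hsub : ∀ n m, n ≤ m → (q m).set ⊆ (q n).set := by
    intro n m h
    induction m, h using Nat.le_induction with
    | base => exact subset_rfl
    | succ m _ ih =>
      rw [hq]
      exact (hg1 _ _ _).trans ih
  have hlen : ∀ n, n ≤ (q n).s.length := by
    intro n
    cases n with
    | zero => omega
    | succ n => rw [hq]; exact hg2 _ _ _
  choose z hz using fun n => (q n).ne
  have hz' : ∀ n, z n ∈ (q n).set := hz
  let D : ℕ → ℕ := fun i => z (i + 1) i
  have hD : ∀ n i, i < n → D i = z n i := by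
    intro n i hi
    have h1 : z n ∈ (q (i + 1)).set := hsub (i + 1) n hi (hz' n)
    have h2 : restr (z (i + 1)) (q (i + 1)).s.length = restr (z n) (q (i + 1)).s.length :=
      (hz' (i + 1)).2.trans h1.2.symm
    have h3 := hlen (i + 1)
    exact restr_congr.1 h2 i (by omega)
  have hDr : ∀ n k, k ≤ n → restr D k = restr (z n) k := by
    intro n k hk
    exact restr_congr.2 (fun i hi => hD n i (by omega))
  have hDmem : ∀ n, D ∈ (q n).set := by
    intro n
    constructor
    · intro k
      rw [hDr (max n k) k (le_max_right _ _)]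
      exact (hsub n (max n k) (le_max_left _ _) (hz' _)).1 k
    · rw [hDr (max n (q n).s.length) _ (le_max_right _ _)]
      exact (hsub n (max n _) (le_max_left _ _) (hz' _)).2
  refine ⟨D, fun i => ?_⟩
  have h1 := hDmem (e i + 1)
  rw [hq, ho] at h1
  exact hg3 _ _ _ i rfl h1

/-- the trivial condition -/
def Cond.triv : Cond where
  V := fun _ => False
  s := []
  m := 0
  sd := ⟨fun _ _ => false, (Computable.const false).to₂, by simp⟩
  ne := ⟨fun _ => 0, by simp, by simp [restr]⟩
  inv := by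
    intro _ _ _ _ _ _ _ h
    exact h

end Pool.Agent.Lib.MP_dc84f7_lc
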