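import Mathlib
import Pool.Agent.Lib.MP_dc84f7_lc.Sigma

/-!
# Coding isomorphisms for uniformly computable collections
-/

set_option autoImplicit false

namespace Pool.Agent.Lib.MP_dc84f7_lc

open Encodable

theorem diag_dom (M : Graph) (x : ℕ) : M.diag (Nat.pair 0 (Nat.pair x x)) = 1 ↔ x ∈ M.dom := by
  unfold Graph.diag
  simp

theorem diag_adj (M : Graph) (x y : ℕ) : M.diag (Nat.pair 1 (Nat.pair x y)) = 1 ↔ M.adj x y := by
  unfold Graph.diag
  simp

/-- decision procedure for the edges of `S p` -/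
def adjB (p : List Q) (x y : ℕ) : Bool := (domB p x && domB p y) && consB x y

theorem adjB_iff (p : List Q) (x y : ℕ) : adjB p x y = true ↔ (S p).adj x y := adj_iff p x y

theorem adjB_comp {α : Type*} [Primcodable α] {p : α → List Q} {f g : α → ℕ}
    (hp : Computable p) (hf : Computable f) (hg : Computable g) :
    Computable (fun a => adjB (p a) (f a) (g a)) :=
  and_comp (and_comp (comp_two domB_comp hp hf) (comp_two domB_comp hp hg)) (comp_two consB_comp hf hg)

attribute [irreducible] adjB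

noncomputable def cdomB (C : ℕ → Graph) (i x : ℕ) : Bool :=
  decide ((C i).diag (Nat.pair 0 (Nat.pair x x)) = 1)

noncomputable def cadjB (C : ℕ → Graph) (i x y : ℕ) : Bool :=
  decide ((C i).diag (Nat.pair 1 (Nat.pair x y)) = 1)

theorem cdomB_iff (C : ℕ → Graph) (i x : ℕ) : cdomB C i x = true ↔ x ∈ (C i).dom := by
  unfold cdomB
  rw [decide_eq_true_eq, diag_dom]

theorem cadjB_iff (C : ℕ → Graph) (i x y : ℕ) : cadjB C i x y = true ↔ (C i).adj x y := by
  unfold cadjB
  rw [decide_eq_true_eq, diag_adj]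

theorem pair_comp {α : Type*} [Primcodable α] {f g : α → ℕ} (hf : Computable f) (hg : Computable g) :
    Computable (fun a => Nat.pair (f a) (g a)) :=
  (Primrec₂.to_comp Primrec₂.natPair).comp hf hg

theorem cdiag_comp {C : ℕ → Graph} {f : ℕ → ℕ} (hf : Computable f) (h : ∀ i, IsIndex (f i) (C i)) :
    Computable (fun x : ℕ × ℕ => (C x.1).diag x.2) := by
  have h1 : Partrec (fun x : ℕ × ℕ => phi (f x.1) x.2) :=
    Nat.Partrec.Code.eval_part.comp ((Computable.ofNat Nat.Partrec.Code).comp (hf.comp Computable.fst))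
      Computable.snd
  refine Partrec.of_eq h1 ?_
  rintro ⟨i, n⟩
  exact h i n

theorem cdomB_comp {C : ℕ → Graph} (hC : Computable (fun x : ℕ × ℕ => (C x.1).diag x.2))
    {α : Type*} [Primcodable α] {f g : α → ℕ} (hf : Computable f) (hg : Computable g) :
    Computable (fun a => cdomB C (f a) (g a)) :=
  eq_comp (comp_two (F := fun i n => (C i).diag n) hC hf
    (pair_comp (Computable.const 0) (pair_comp hg hg))) (Computable.const 1)

theorem cadjB_comp {C : ℕ → Graph} (hC : Computable (fun x : ℕ × ℕ => (C x.1).diag x.2))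
    {α : Type*} [Primcodable α] {f g h : α → ℕ} (hf : Computable f) (hg : Computable g)
    (hh : Computable h) :
    Computable (fun a => cadjB C (f a) (g a) (h a)) :=
  eq_comp (comp_two (F := fun i n => (C i).diag n) hC hf
    (pair_comp (Computable.const 1) (pair_comp hg hh))) (Computable.const 1)

attribute [irreducible] cdomB cadjB

/-- positions of the coded isomorphisms -/
def posH (M i x : ℕ) : ℕ := Nat.pair M (Nat.pair 0 (Nat.pair i x))
def posG (M i x : ℕ) : ℕ := Nat.pair M (Nat.pair 1 (Nat.pair i x))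

theorem posH_comp (M : ℕ) {α : Type*} [Primcodable α] {f g : α → ℕ} (hf : Computable f)
    (hg : Computable g) : Computable (fun a => posH M (f a) (g a)) :=
  pair_comp (Computable.const M) (pair_comp (Computable.const 0) (pair_comp hf hg))

theorem posG_comp (M : ℕ) {α : Type*} [Primcodable α] {f g : α → ℕ} (hf : Computable f)
    (hg : Computable g) : Computable (fun a => posG M (f a) (g a)) :=
  pair_comp (Computable.const M) (pair_comp (Computable.const 1) (pair_comp hf hg))

theorem getElem?_eq_comp {α : Type*} [Primcodable α] {l : α → List ℕ} {f g : α → ℕ}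
    (hl : Computable l) (hf : Computable f) (hg : Computable g) :
    Computable (fun a => decide (((l a)[f a]? : Option ℕ) = some (g a))) :=
  eq_comp (getElem?_comp hl hf) (Computable.option_some.comp hg)

theorem getElem?_restr_iff (z : ℕ → ℕ) (k p a : ℕ) : (restr z k)[p]? = some a ↔ p < k ∧ z p = a := by
  rcases Nat.lt_or_ge p k with h | h
  · rw [restr_getElem? z h]
    simp [h]
  · rw [List.getElem?_eq_none_iff.2 (by simpa using h)]
    simp only [reduceCtorEq, false_iff, not_and]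
    intro h'
    omega

attribute [irreducible] posH posG

section

variable (C : ℕ → Graph) (M : ℕ)

def V1 (τ : List ℕ) : Prop :=
  ∃ w : ℕ × ℕ × ℕ × ℕ, ((decide (τ[posH M w.1 w.2.1]? = some w.2.2.1) &&
    decide (τ[posG M w.1 w.2.2.1]? = some w.2.2.2)) &&
    (domB [] w.2.1 && !(cdomB C w.1 w.2.2.1 && decide (w.2.2.2 = w.2.1)))) = true

def V2 (τ : List ℕ) : Prop :=
  ∃ w : ℕ × ℕ × ℕ × ℕ, ((decide (τ[posG M w.1 w.2.1]? = some w.2.2.1) &&
    decide (τ[posH M w.1 w.2.2.1]? = some w.2.2.2)) &&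
    (cdomB C w.1 w.2.1 && !(domB [] w.2.2.1 && decide (w.2.2.2 = w.2.1)))) = true

def V3 (τ : List ℕ) : Prop :=
  ∃ w : ℕ × ℕ × ℕ × ℕ × ℕ, ((decide (τ[posH M w.1 w.2.1]? = some w.2.2.2.1) &&
    decide (τ[posH M w.1 w.2.2.1]? = some w.2.2.2.2)) &&
    ((domB [] w.2.1 && domB [] w.2.2.1) &&
      !(decide (adjB [] w.2.1 w.2.2.1 = cadjB C w.1 w.2.2.2.1 w.2.2.2.2)))) = true

variable {C}

theorem V1_sd (hC : Computable (fun x : ℕ × ℕ => (C x.1).diag x.2)) : SD (V1 C M) := by
  have t : Computable (fun x : List ℕ × (ℕ × ℕ × ℕ × ℕ) => x.1) := Computable.fst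
  have w : Computable (fun x : List ℕ × (ℕ × ℕ × ℕ × ℕ) => x.2) := Computable.snd
  have w1 : Computable (fun x : List ℕ × (ℕ × ℕ × ℕ × ℕ) => x.2.1) := Computable.fst.comp w
  have v2 : Computable (fun x : List ℕ × (ℕ × ℕ × ℕ × ℕ) => x.2.2) := Computable.snd.comp w
  have w2 : Computable (fun x : List ℕ × (ℕ × ℕ × ℕ × ℕ) => x.2.2.1) := Computable.fst.comp v2
  have v3 : Computable (fun x : List ℕ × (ℕ × ℕ × ℕ × ℕ) => x.2.2.2) := Computable.snd.comp v2
  have w3 : Computable (fun x : List ℕ × (ℕ × ℕ × ℕ × ℕ) => x.2.2.2.1) := Computable.fst.comp v3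
  have w4 : Computable (fun x : List ℕ × (ℕ × ℕ × ℕ × ℕ) => x.2.2.2.2) := Computable.snd.comp v3
  have h := and_comp
    (and_comp (getElem?_eq_comp t (posH_comp M w1 w2) w3) (getElem?_eq_comp t (posG_comp M w1 w3) w4))
    (and_comp (comp_two domB_comp (Computable.const []) w2)
      (not_comp (and_comp (cdomB_comp hC w1 w3) (eq_comp w4 w2))))
  exact SD.ex (SD.of_computable h)

theorem V2_sd (hC : Computable (fun x : ℕ × ℕ => (C x.1).diag x.2)) : SD (V2 C M) := by
  have t : Computable (fun x : List ℕ × (ℕ × ℕ × ℕ × ℕ) => x.1) := Computable.fst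
  have w : Computable (fun x : List ℕ × (ℕ × ℕ × ℕ × ℕ) => x.2) := Computable.snd
  have w1 : Computable (fun x : List ℕ × (ℕ × ℕ × ℕ × ℕ) => x.2.1) := Computable.fst.comp w
  have v2 : Computable (fun x : List ℕ × (ℕ × ℕ × ℕ × ℕ) => x.2.2) := Computable.snd.comp w
  have w2 : Computable (fun x : List ℕ × (ℕ × ℕ × ℕ × ℕ) => x.2.2.1) := Computable.fst.comp v2
  have v3 : Computable (fun x : List ℕ × (ℕ × ℕ × ℕ × ℕ) => x.2.2.2) := Computable.snd.comp v2
  have w3 : Computable (fun x : List ℕ × (ℕ × ℕ × ℕ × ℕ) => x.2.2.2.1) := Computable.fst.comp v3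
  have w4 : Computable (fun x : List ℕ × (ℕ × ℕ × ℕ × ℕ) => x.2.2.2.2) := Computable.snd.comp v3
  have h := and_comp
    (and_comp (getElem?_eq_comp t (posG_comp M w1 w2) w3) (getElem?_eq_comp t (posH_comp M w1 w3) w4))
    (and_comp (cdomB_comp hC w1 w2)
      (not_comp (and_comp (comp_two domB_comp (Computable.const []) w3) (eq_comp w4 w2))))
  exact SD.ex (SD.of_computable h)

theorem V3_sd (hC : Computable (fun x : ℕ × ℕ => (C x.1).diag x.2)) : SD (V3 C M) := by
  have t : Computable (fun x : List ℕ × (ℕ × ℕ × ℕ × ℕ × ℕ) => x.1) := Computable.fst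
  have w : Computable (fun x : List ℕ × (ℕ × ℕ × ℕ × ℕ × ℕ) => x.2) := Computable.snd
  have w1 : Computable (fun x : List ℕ × (ℕ × ℕ × ℕ × ℕ × ℕ) => x.2.1) := Computable.fst.comp w
  have v2 : Computable (fun x : List ℕ × (ℕ × ℕ × ℕ × ℕ × ℕ) => x.2.2) := Computable.snd.comp w
  have w2 : Computable (fun x : List ℕ × (ℕ × ℕ × ℕ × ℕ × ℕ) => x.2.2.1) := Computable.fst.comp v2
  have v3 : Computable (fun x : List ℕ × (ℕ × ℕ × ℕ × ℕ × ℕ) => x.2.2.2) := Computable.snd.comp v2
  have w3 : Computable (fun x : List ℕ × (ℕ × ℕ × ℕ × ℕ × ℕ) => x.2.2.2.1) := Computable.fst.comp v3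
  have v4 : Computable (fun x : List ℕ × (ℕ × ℕ × ℕ × ℕ × ℕ) => x.2.2.2.2) := Computable.snd.comp v3
  have w4 : Computable (fun x : List ℕ × (ℕ × ℕ × ℕ × ℕ × ℕ) => x.2.2.2.2.1) := Computable.fst.comp v4
  have w5 : Computable (fun x : List ℕ × (ℕ × ℕ × ℕ × ℕ × ℕ) => x.2.2.2.2.2) := Computable.snd.comp v4
  have h := and_comp
    (and_comp (getElem?_eq_comp t (posH_comp M w1 w2) w4) (getElem?_eq_comp t (posH_comp M w1 w3) w5))
    (and_comp (and_comp (comp_two domB_comp (Computable.const []) w2)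
      (comp_two domB_comp (Computable.const []) w3))
      (not_comp (eq_comp (adjB_comp (Computable.const []) w2 w3) (cadjB_comp hC w1 w4 w5))))
  exact SD.ex (SD.of_computable h)

/-- `z` codes isomorphisms in column `M` -/
def Codes (C : ℕ → Graph) (M : ℕ) (z : ℕ → ℕ) : Prop :=
  (∀ i x, x ∈ (S []).dom → z (posH M i x) ∈ (C i).dom ∧ z (posG M i (z (posH M i x))) = x) ∧
  (∀ i x, x ∈ (C i).dom → z (posG M i x) ∈ (S []).dom ∧ z (posH M i (z (posG M i x))) = x) ∧
  (∀ i x y, x ∈ (S []).dom → y ∈ (S []).dom →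
    ((S []).adj x y ↔ (C i).adj (z (posH M i x)) (z (posH M i y))))

variable (C)

theorem codes_iff (z : ℕ → ℕ) :
    (∀ k, ¬ (V1 C M (restr z k) ∨ V2 C M (restr z k) ∨ V3 C M (restr z k))) ↔ Codes C M z := by
  constructor
  · intro h
    refine ⟨?_, ?_, ?_⟩
    · intro i x hx
      by_contra hcon
      refine h (posH M i x + posG M i (z (posH M i x)) + 1) (Or.inl ?_)
      refine ⟨(i, x, z (posH M i x), z (posG M i (z (posH M i x)))), ?_⟩
      simp only [Bool.and_eq_true, decide_eq_true_eq, getElem?_restr_iff, Bool.not_eq_true',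
        domB_iff]
      refine ⟨⟨⟨by omega, trivial⟩, ⟨by omega, trivial⟩⟩, hx, ?_⟩
      rw [← Bool.not_eq_true, Bool.and_eq_true, decide_eq_true_eq, cdomB_iff]
      exact hcon
    · intro i x hx
      by_contra hcon
      refine h (posG M i x + posH M i (z (posG M i x)) + 1) (Or.inr (Or.inl ?_))
      refine ⟨(i, x, z (posG M i x), z (posH M i (z (posG M i x)))), ?_⟩
      simp only [Bool.and_eq_true, decide_eq_true_eq, getElem?_restr_iff, Bool.not_eq_true',
        cdomB_iff]
      refine ⟨⟨⟨by omega, trivial⟩, ⟨by omega, trivial⟩⟩, hx, ?_⟩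
      rw [← Bool.not_eq_true, Bool.and_eq_true, decide_eq_true_eq, domB_iff]
      exact hcon
    · intro i x y hx hy
      by_contra hcon
      refine h (posH M i x + posH M i y + 1) (Or.inr (Or.inr ?_))
      refine ⟨(i, x, y, z (posH M i x), z (posH M i y)), ?_⟩
      simp only [Bool.and_eq_true, decide_eq_true_eq, getElem?_restr_iff, Bool.not_eq_true',
        domB_iff, decide_eq_false_iff_not]
      refine ⟨⟨⟨by omega, trivial⟩, ⟨by omega, trivial⟩⟩, ⟨hx, hy⟩, ?_⟩
      rw [Bool.eq_iff_iff, adjB_iff, cadjB_iff]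
      exact hcon
  · rintro ⟨h1, h2, h3⟩ k (⟨w, hw⟩ | ⟨w, hw⟩ | ⟨w, hw⟩)
    · simp only [Bool.and_eq_true, decide_eq_true_eq, getElem?_restr_iff, Bool.not_eq_true',
        domB_iff] at hw
      obtain ⟨⟨⟨_, hw1⟩, ⟨_, hw2⟩⟩, hw3, hw4⟩ := hw
      rw [← Bool.not_eq_true, Bool.and_eq_true, decide_eq_true_eq, cdomB_iff] at hw4
      apply hw4
      rw [← hw2, ← hw1]
      exact h1 _ _ hw3
    · simp only [Bool.and_eq_true, decide_eq_true_eq, getElem?_restr_iff, Bool.not_eq_true',
        cdomB_iff] at hw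
      obtain ⟨⟨⟨_, hw1⟩, ⟨_, hw2⟩⟩, hw3, hw4⟩ := hw
      rw [← Bool.not_eq_true, Bool.and_eq_true, decide_eq_true_eq, domB_iff] at hw4
      apply hw4
      rw [← hw2, ← hw1]
      exact h2 _ _ hw3
    · simp only [Bool.and_eq_true, decide_eq_true_eq, getElem?_restr_iff, Bool.not_eq_true',
        domB_iff, decide_eq_false_iff_not] at hw
      obtain ⟨⟨⟨_, hw1⟩, ⟨_, hw2⟩⟩, ⟨hw3, hw3'⟩, hw4⟩ := hw
      rw [Bool.eq_iff_iff, adjB_iff, cadjB_iff] at hw4
      apply hw4
      rw [← hw2, ← hw1]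
      exact h3 _ _ _ hw3 hw3'

end

theorem Codes.isIso {C : ℕ → Graph} {M : ℕ} {z : ℕ → ℕ} (h : Codes C M z) (i : ℕ) :
    IsIso (S []) (C i) (fun x => z (posH M i x)) := by
  obtain ⟨h1, h2, h3⟩ := h
  refine ⟨⟨?_, ?_, ?_⟩, ?_⟩
  · intro x hx
    exact (h1 i x hx).1
  · intro x hx y hy hxy
    simp only at hxy
    rw [← (h1 i x hx).2, ← (h1 i y hy).2, hxy]
  · intro y hy
    exact ⟨_, (h2 i y hy).1, (h2 i y hy).2⟩
  · intro x hx y hy
    exact h3 i x y hx hy

theorem stepA (C : ℕ → Graph) (hC : UnifCollection (S []) C) (p : Cond) :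
    ∃ q : Cond, q.set ⊆ p.set ∧ ∀ D ∈ q.set, UnifCategoricalWithin (S []) C D := by
  classical
  obtain ⟨hC1, f, hf, hf'⟩ := hC
  have hd := cdiag_comp hf hf'
  let M := max p.m p.s.length
  have hMm : p.m ≤ M := le_max_left _ _
  have hMs : p.s.length ≤ M := le_max_right _ _
  have hposH : ∀ i x, (posH M i x).unpair = (M, Nat.pair 0 (Nat.pair i x)) := by
    intro i x; unfold posH; rw [Nat.unpair_pair]
  have hposG : ∀ i x, (posG M i x).unpair = (M, Nat.pair 1 (Nat.pair i x)) := by
    intro i x; unfold posG; rw [Nat.unpair_pair]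
  have hV : ∀ z : ℕ → ℕ, (∀ k, ¬ (p.V (restr z k) ∨ V1 C M (restr z k) ∨ V2 C M (restr z k) ∨
      V3 C M (restr z k))) ↔ (∀ k, ¬ p.V (restr z k)) ∧ Codes C M z := by
    intro z
    rw [← codes_iff]
    constructor
    · intro h
      exact ⟨fun k hk => h k (Or.inl hk), fun k hk => h k (Or.inr hk)⟩
    · rintro ⟨h1, h2⟩ k (hk | hk)
      · exact h1 k hk
      · exact h2 k hk
  refine ⟨⟨fun τ => p.V τ ∨ V1 C M τ ∨ V2 C M τ ∨ V3 C M τ, p.s, M + 1, ?_, ?_, ?_⟩, ?_, ?_⟩
  · exact p.sd.or ((V1_sd M hd).or ((V2_sd M hd).or (V3_sd M hd)))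
  · obtain ⟨z, hz1, hz2⟩ := p.ne
    choose h hh using hC1
    have hinv : ∀ i, ∃ g : ℕ → ℕ, (∀ x ∈ (S []).dom, g (h i x) = x) ∧
        (∀ y ∈ (C i).dom, g y ∈ (S []).dom ∧ h i (g y) = y) := by
      intro i
      refine ⟨Function.invFunOn (h i) (S []).dom, ?_, ?_⟩
      · intro x hx
        exact (hh i).1.injOn.leftInvOn_invFunOn hx
      · intro y hy
        have := (hh i).1.surjOn hy
        exact ⟨Function.invFunOn_mem this, Function.invFunOn_eq this⟩
    choose g hg1 hg2 using hinv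
    let z' : ℕ → ℕ := fun q => if q.unpair.1 = M then
      (if q.unpair.2.unpair.1 = 0 then h q.unpair.2.unpair.2.unpair.1 q.unpair.2.unpair.2.unpair.2
        else g q.unpair.2.unpair.2.unpair.1 q.unpair.2.unpair.2.unpair.2) else z q
    have hz'H : ∀ i x, z' (posH M i x) = h i x := by
      intro i x
      simp only [z', hposH, Nat.unpair_pair, if_true]
    have hz'G : ∀ i x, z' (posG M i x) = g i x := by
      intro i x
      simp [z', hposG]
    have hz's : ∀ q, q < M → z' q = z q := by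
      intro q hq
      have : q.unpair.1 ≠ M := by
        have := Nat.unpair_left_le q
        omega
      simp only [z', if_neg this]
    refine ⟨z', ?_, ?_⟩
    · rw [hV]
      refine ⟨p.inv z z' hz1 hz2 ?_ ?_, ?_, ?_, ?_⟩
      · rw [← hz2]
        simp only [restr_length]
        rw [restr_congr]
        intro q hq
        rw [hz's q (by omega)]
      · intro q hq
        have : q.unpair.1 ≠ M := by omega
        simp only [z', if_neg this]
      · intro i x hx
        rw [hz'H, hz'G]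
        exact ⟨(hh i).1.mapsTo hx, hg1 i x hx⟩
      · intro i x hx
        rw [hz'G, hz'H]
        exact hg2 i x hx
      · intro i x y hx hy
        rw [hz'H, hz'H]
        exact (hh i).2 x hx y hy
    · rw [← hz2]
      simp only [restr_length]
      rw [restr_congr]
      intro q hq
      rw [hz's q (by omega), ]
  · intro z z' h1 h2 h3 h4
    rw [hV] at h1 ⊢
    refine ⟨p.inv z z' h1.1 h2 h3 (fun q hq => h4 q (by omega)), ?_⟩
    have e1 : ∀ i x, z' (posH M i x) = z (posH M i x) := by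
      intro i x
      apply h4
      rw [hposH]
      simp
    have e2 : ∀ i x, z' (posG M i x) = z (posG M i x) := by
      intro i x
      apply h4
      rw [hposG]
      simp
    obtain ⟨g1, g2, g3⟩ := h1.2
    refine ⟨?_, ?_, ?_⟩
    · intro i x hx
      rw [e1, e2]
      exact g1 i x hx
    · intro i x hx
      rw [e2, e1]
      exact g2 i x hx
    · intro i x y hx hy
      rw [e1, e1]
      exact g3 i x y hx hy
  · rintro z ⟨hz1, hz2⟩
    simp only at hz1 hz2
    rw [hV] at hz1
    exact ⟨hz1.1, hz2⟩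
  · rintro D ⟨hz1, hz2⟩
    simp only at hz1
    rw [hV] at hz1
    let k : ℕ → ℕ := fun x => posH M x.unpair.1 x.unpair.2
    have hk : Computable k := posH_comp M (Computable.fst.comp Computable.unpair)
      (Computable.snd.comp Computable.unpair)
    refine ⟨fun x => D (k x), RecursiveIn.iff_nat.2 (recursiveIn_comp D hk), ?_⟩
    intro i
    have := hz1.2.isIso i
    simpa [k] using this

end Pool.Agent.Lib.MP_dc84f7_lc
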