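import Mathlib
import Pool.Agent.Lib.MP_dc84f7_lc.StepA

/-!
# Defeating a functional
-/

set_option autoImplicit false

namespace Pool.Agent.Lib.MP_dc84f7_lc

open Encodable

/-- `τ` agrees with `z` on the columns below `m` -/
def Agree (m : ℕ) (τ : List ℕ) (z : ℕ → ℕ) : Prop :=
  ∀ p, p < τ.length → p.unpair.1 < m → τ[p]? = some (z p)

/-- finite version of `Agree` -/
def agreeB (m : ℕ) (τ τ' : List ℕ) : Bool :=
  allBelow (fun p => !(decide (p.unpair.1 < m)) || decide ((τ[p]? : Option ℕ) = τ'[p]?)) τ.length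

theorem agreeB_comp (m : ℕ) : Computable (fun x : List ℕ × List ℕ => agreeB m x.1 x.2) := by
  have g1 : Computable (fun y : (List ℕ × List ℕ) × ℕ => decide (y.2.unpair.1 < m)) :=
    lt_comp (Computable.fst.comp (Computable.unpair.comp Computable.snd)) (Computable.const m)
  have g2 : Computable (fun y : (List ℕ × List ℕ) × ℕ => decide ((y.1.1[y.2]? : Option ℕ) = y.1.2[y.2]?)) :=
    eq_comp (getElem?_comp (Computable.fst.comp Computable.fst) Computable.snd)
      (getElem?_comp (Computable.snd.comp Computable.fst) Computable.snd)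
  have g3 : Computable₂ (fun (x : List ℕ × List ℕ) (p : ℕ) =>
      !(decide (p.unpair.1 < m)) || decide ((x.1[p]? : Option ℕ) = x.2[p]?)) :=
    (or_comp (not_comp g1) g2).to₂
  have g4 := (computable_allBelow g3).comp Computable.id (Computable.list_length.comp Computable.fst)
  refine g4.of_eq ?_
  intro x
  rw [agreeB]
  rfl

theorem agreeB_iff (m : ℕ) (τ : List ℕ) (z : ℕ → ℕ) (k : ℕ) (hk : τ.length ≤ k) :
    agreeB m τ (restr z k) = true ↔ Agree m τ z := by
  unfold agreeB Agree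
  rw [allBelow_iff]
  constructor
  · intro h p hp hpm
    have := h p hp
    simp only [Bool.or_eq_true, Bool.not_eq_true', decide_eq_false_iff_not, decide_eq_true_eq] at this
    rcases this with h1 | h1
    · exact absurd hpm h1
    · rw [h1, restr_getElem? z (by omega)]
  · intro h p hp
    simp only [Bool.or_eq_true, Bool.not_eq_true', decide_eq_false_iff_not, decide_eq_true_eq]
    by_cases hpm : p.unpair.1 < m
    · right
      rw [h p hp hpm, restr_getElem? z (by omega)]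
    · left
      exact hpm

attribute [irreducible] agreeB

section

variable (Ψ : List ℕ → ℕ →. ℕ) (idx : ℕ → ℕ)

/-- test for a failure to be an embedding of `S []` into `S [(n, [])]` -/
def badB (n x y a b : ℕ) : Bool :=
  (domB [] x && domB [] y) && (!(domB [((n, []) : Q)] a) ||
    ((!(decide (x = y)) && decide (a = b)) ||
      !(decide (adjB [] x y = adjB [((n, []) : Q)] a b))))

def Bad (n : ℕ) (σ : List ℕ) : Prop :=
  ∃ w : ℕ × ℕ × ℕ × ℕ, (w.2.2.1 ∈ Ψ σ (Nat.pair (idx n) w.1) ∧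
    w.2.2.2 ∈ Ψ σ (Nat.pair (idx n) w.2.1)) ∧ badB n w.1 w.2.1 w.2.2.1 w.2.2.2 = true

def Ach (n : ℕ) (σ : List ℕ) (j : ℕ) : Prop :=
  (j.unpair.1 = 0 ∧ (domB [] j.unpair.2 = false ∨ ∃ a, a ∈ Ψ σ (Nat.pair (idx n) j.unpair.2))) ∨
  (0 < j.unpair.1 ∧ (domB [((n, []) : Q)] j.unpair.2 = false ∨
    ∃ x, domB [] x = true ∧ j.unpair.2 ∈ Ψ σ (Nat.pair (idx n) x)))

variable {Ψ idx}

theorem root_comp {α : Type*} [Primcodable α] {f : α → ℕ} (hf : Computable f) :
    Computable (fun a => [((f a, []) : Q)]) :=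
  Computable.list_cons.comp (hf.pair (Computable.const [])) (Computable.const [])

theorem mem_sd (hΨ : Partrec₂ Ψ) (hidx : Computable idx) {α : Type*} [Primcodable α]
    {n x y : α → ℕ} {σ : α → List ℕ} (hn : Computable n) (hσ : Computable σ) (hx : Computable x)
    (hy : Computable y) : SD (fun a => y a ∈ Ψ (σ a) (Nat.pair (idx (n a)) (x a))) := by
  have h1 : SD (fun w : (List ℕ × ℕ) × ℕ => w.2 ∈ Ψ w.1.1 w.1.2) := SD.of_partrec hΨ
  exact h1.comp ((hσ.pair (pair_comp (hidx.comp hn) hx)).pair hy)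

theorem Bad_sd (hΨ : Partrec₂ Ψ) (hidx : Computable idx) :
    SD (fun x : ℕ × List ℕ => Bad Ψ idx x.1 x.2) := by
  have a1 : Computable (fun x : (ℕ × List ℕ) × (ℕ × ℕ × ℕ × ℕ) => x.1.1) :=
    Computable.fst.comp Computable.fst
  have a2 : Computable (fun x : (ℕ × List ℕ) × (ℕ × ℕ × ℕ × ℕ) => x.1.2) :=
    Computable.snd.comp Computable.fst
  have w1 : Computable (fun x : (ℕ × List ℕ) × (ℕ × ℕ × ℕ × ℕ) => x.2.1) :=
    Computable.fst.comp Computable.snd
  have v2 : Computable (fun x : (ℕ × List ℕ) × (ℕ × ℕ × ℕ × ℕ) => x.2.2) :=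
    Computable.snd.comp Computable.snd
  have w2 : Computable (fun x : (ℕ × List ℕ) × (ℕ × ℕ × ℕ × ℕ) => x.2.2.1) :=
    Computable.fst.comp v2
  have v3 : Computable (fun x : (ℕ × List ℕ) × (ℕ × ℕ × ℕ × ℕ) => x.2.2.2) :=
    Computable.snd.comp v2
  have w3 : Computable (fun x : (ℕ × List ℕ) × (ℕ × ℕ × ℕ × ℕ) => x.2.2.2.1) :=
    Computable.fst.comp v3
  have w4 : Computable (fun x : (ℕ × List ℕ) × (ℕ × ℕ × ℕ × ℕ) => x.2.2.2.2) :=
    Computable.snd.comp v3
  have n0 : Computable (fun _ : (ℕ × List ℕ) × (ℕ × ℕ × ℕ × ℕ) => ([] : List Q)) := Computable.const []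
  have r : Computable (fun x : (ℕ × List ℕ) × (ℕ × ℕ × ℕ × ℕ) => [((x.1.1, []) : Q)]) := root_comp a1
  have h := and_comp (and_comp (comp_two domB_comp n0 w1) (comp_two domB_comp n0 w2))
    (or_comp (not_comp (comp_two domB_comp r w3))
      (or_comp (and_comp (not_comp (eq_comp w1 w2)) (eq_comp w3 w4))
        (not_comp (eq_comp (adjB_comp n0 w1 w2) (adjB_comp r w3 w4)))))
  have h' : Computable (fun x : (ℕ × List ℕ) × (ℕ × ℕ × ℕ × ℕ) =>
      badB x.1.1 x.2.1 x.2.2.1 x.2.2.2.1 x.2.2.2.2) := by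
    refine h.of_eq ?_
    intro x
    rw [badB]
  exact SD.ex (((mem_sd hΨ hidx a1 a2 w1 w3).and (mem_sd hΨ hidx a1 a2 w2 w4)).and (SD.of_computable h'))

theorem Ach_sd (hΨ : Partrec₂ Ψ) (hidx : Computable idx) :
    SD (fun x : ℕ × List ℕ × ℕ => Ach Ψ idx x.1 x.2.1 x.2.2) := by
  have a1 : Computable (fun x : ℕ × List ℕ × ℕ => x.1) := Computable.fst
  have j : Computable (fun x : ℕ × List ℕ × ℕ => x.2.2) := Computable.snd.comp Computable.snd
  have j1 : Computable (fun x : ℕ × List ℕ × ℕ => x.2.2.unpair.1) :=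
    Computable.fst.comp (Computable.unpair.comp j)
  have j2 : Computable (fun x : ℕ × List ℕ × ℕ => x.2.2.unpair.2) :=
    Computable.snd.comp (Computable.unpair.comp j)
  have n0 : Computable (fun _ : ℕ × List ℕ × ℕ => ([] : List Q)) := Computable.const []
  have r : Computable (fun x : ℕ × List ℕ × ℕ => [((x.1, []) : Q)]) := root_comp a1
  have b1 : Computable (fun x : (ℕ × List ℕ × ℕ) × ℕ => x.1.1) := Computable.fst.comp Computable.fst
  have bv : Computable (fun x : (ℕ × List ℕ × ℕ) × ℕ => x.1.2) := Computable.snd.comp Computable.fst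
  have b2 : Computable (fun x : (ℕ × List ℕ × ℕ) × ℕ => x.1.2.1) := Computable.fst.comp bv
  have b3 : Computable (fun x : (ℕ × List ℕ × ℕ) × ℕ => x.1.2.2.unpair.2) :=
    Computable.snd.comp (Computable.unpair.comp (Computable.snd.comp bv))
  have b4 : Computable (fun x : (ℕ × List ℕ × ℕ) × ℕ => x.2) := Computable.snd
  have n0' : Computable (fun _ : (ℕ × List ℕ × ℕ) × ℕ => ([] : List Q)) := Computable.const []
  have s1 : SD (fun x : ℕ × List ℕ × ℕ => domB [] x.2.2.unpair.2 = false) := by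
    refine (SD.of_computable (not_comp (comp_two domB_comp n0 j2))).of_iff ?_
    intro x
    rw [Bool.not_eq_true']
  have s2 : SD (fun x : ℕ × List ℕ × ℕ => domB [((x.1, []) : Q)] x.2.2.unpair.2 = false) := by
    refine (SD.of_computable (not_comp (comp_two domB_comp r j2))).of_iff ?_
    intro x
    rw [Bool.not_eq_true']
  have s3 : SD (fun x : ℕ × List ℕ × ℕ => ∃ a, a ∈ Ψ x.2.1 (Nat.pair (idx x.1) x.2.2.unpair.2)) :=
    SD.ex (mem_sd hΨ hidx b1 b2 b3 b4)
  have s4 : SD (fun x : ℕ × List ℕ × ℕ => ∃ a, domB [] a = true ∧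
      x.2.2.unpair.2 ∈ Ψ x.2.1 (Nat.pair (idx x.1) a)) :=
    SD.ex ((SD.of_computable (comp_two domB_comp n0' b4)).and (mem_sd hΨ hidx b1 b2 b4 b3))
  exact ((SD.of_computablePred (eq_comp j1 (Computable.const 0))).and (s1.or s3)).or
    ((SD.of_computablePred (lt_comp (Computable.const 0) j1)).and (s2.or s4))

theorem badB_iff (n x y a b : ℕ) : badB n x y a b = true ↔
    (x ∈ (S []).dom ∧ y ∈ (S []).dom) ∧ (a ∉ (S [((n, []) : Q)]).dom ∨ (x ≠ y ∧ a = b) ∨
      ¬ ((S []).adj x y ↔ (S [((n, []) : Q)]).adj a b)) := by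
  unfold badB
  simp only [Bool.and_eq_true, Bool.or_eq_true, Bool.not_eq_true', decide_eq_true_eq,
    decide_eq_false_iff_not, domB_iff]
  rw [← Bool.not_eq_true, domB_iff, Bool.eq_iff_iff, adjB_iff, adjB_iff]

theorem Ach_iff (n : ℕ) (σ : List ℕ) (j : ℕ) : Ach Ψ idx n σ j ↔
  (j.unpair.1 = 0 ∧ (j.unpair.2 ∉ (S []).dom ∨ ∃ a, a ∈ Ψ σ (Nat.pair (idx n) j.unpair.2))) ∨
  (0 < j.unpair.1 ∧ (j.unpair.2 ∉ (S [((n, []) : Q)]).dom ∨
    ∃ x, x ∈ (S []).dom ∧ j.unpair.2 ∈ Ψ σ (Nat.pair (idx n) x))) := by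
  unfold Ach
  rw [← Bool.not_eq_true, ← Bool.not_eq_true, domB_iff, domB_iff]
  simp only [domB_iff]

/-- if no bad event occurs and every requirement can be met, then `S [(n, [])] ≅ S []` -/
theorem build (hmono : Mono Ψ) (p : Cond) (n : ℕ)
    (h1 : ∀ z ∈ p.set, ∀ k, ¬ Bad Ψ idx n (restr z k))
    (h2 : ∀ z ∈ p.set, ∀ k, p.s.length ≤ k → ∀ j, ∃ τ : List ℕ, k ≤ τ.length ∧
      τ.take k = restr z k ∧ Agree p.m τ z ∧ Ach Ψ idx n τ j) :
    ∃ f, IsIso (S []) (S [((n, []) : Q)]) f := by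
  classical
  -- one step
  have step : ∀ (j : ℕ) (x : (ℕ → ℕ) × ℕ), x.1 ∈ p.set ∧ p.s.length ≤ x.2 →
      ∃ y : (ℕ → ℕ) × ℕ, (y.1 ∈ p.set ∧ p.s.length ≤ y.2) ∧ x.2 ≤ y.2 ∧
        restr y.1 x.2 = restr x.1 x.2 ∧ Ach Ψ idx n (restr y.1 y.2) j := by
    rintro j ⟨z, k⟩ ⟨hz, hk⟩
    obtain ⟨τ, hτ1, hτ2, hτ3, hτ4⟩ := h2 z hz k hk j
    let z' : ℕ → ℕ := fun q => (τ[q]?).getD (z q)
    have hz'1 : ∀ q, q < τ.length → τ[q]? = some (z' q) := by
      intro q hq
      simp only [z']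
      rw [List.getElem?_eq_getElem hq]
      rfl
    have hz'2 : restr z' τ.length = τ := by
      apply List.ext_getElem?
      intro i
      rcases Nat.lt_or_ge i τ.length with hi | hi
      · rw [restr_getElem? z' hi, hz'1 i hi]
      · rw [List.getElem?_eq_none_iff.2 (by simpa using hi), List.getElem?_eq_none_iff.2 hi]
    have hz'3 : restr z' k = restr z k := by
      rw [← restr_take z' hτ1, hz'2, hτ2]
    have hz'4 : z' ∈ p.set := by
      have h3 : restr z' p.s.length = p.s := by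
        rw [← restr_take z' hk, hz'3, restr_take z hk]
        exact hz.2
      refine ⟨p.inv z z' hz.1 hz.2 h3 ?_, h3⟩
      intro q hq
      rcases Nat.lt_or_ge q τ.length with hi | hi
      · have e1 := hz'1 q hi
        rw [hτ3 q hi hq] at e1
        exact (Option.some.inj e1).symm
      · simp only [z']
        rw [List.getElem?_eq_none_iff.2 hi]
        rfl
    refine ⟨(z', τ.length), ⟨hz'4, hk.trans hτ1⟩, hτ1, hz'3, ?_⟩
    simp only
    rw [hz'2]
    exact hτ4
  obtain ⟨z₀, hz₀⟩ := p.ne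
  choose! g hg1 hg2 hg3 hg4 using step
  let x : ℕ → (ℕ → ℕ) × ℕ := fun i => Nat.rec (z₀, p.s.length) (fun j y => g j y) i
  have hx : ∀ i, x (i + 1) = g i (x i) := fun i => rfl
  have hxp : ∀ i, (x i).1 ∈ p.set ∧ p.s.length ≤ (x i).2 := by
    intro i
    induction i with
    | zero => exact ⟨hz₀, le_rfl⟩
    | succ i ih => rw [hx]; exact hg1 _ _ ih
  have hle : ∀ i j, i ≤ j → (x i).2 ≤ (x j).2 := by
    intro i j hij
    induction j, hij using Nat.le_induction with
    | base => exact le_rfl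
    | succ j _ ih =>
      rw [hx]
      exact ih.trans (hg2 j _ (hxp j))
  let τ : ℕ → List ℕ := fun i => restr (x i).1 (x i).2
  have hτ : ∀ i j, i ≤ j → τ i <+: τ j := by
    intro i j hij
    induction j, hij using Nat.le_induction with
    | base => exact List.prefix_rfl
    | succ j _ ih =>
      refine ih.trans ?_
      show restr (x j).1 (x j).2 <+: restr (x (j + 1)).1 (x (j + 1)).2
      rw [hx, ← hg3 j _ (hxp j)]
      exact restr_prefix _ (hg2 j _ (hxp j))
  have hbad : ∀ i, ¬ Bad Ψ idx n (τ i) := fun i => h1 _ (hxp i).1 _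
  have hach : ∀ j, Ach Ψ idx n (τ (j + 1)) j := by
    intro j
    show Ach Ψ idx n (restr (x (j + 1)).1 (x (j + 1)).2) j
    rw [hx]
    exact hg4 j _ (hxp j)
  -- the isomorphism
  have hf : ∀ a, a ∈ (S []).dom → ∃ b i, b ∈ Ψ (τ i) (Nat.pair (idx n) a) := by
    intro a ha
    have h3 := (Ach_iff _ _ _).1 (hach (Nat.pair 0 a))
    simp only [Nat.unpair_pair] at h3
    rcases h3 with ⟨_, h3 | ⟨b, h3⟩⟩ | ⟨h3, _⟩
    · exact absurd ha h3
    · exact ⟨b, Nat.pair 0 a + 1, h3⟩
    · exact absurd h3 (by simp)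
  choose! f e hfe using hf
  have huniq : ∀ a i j b c, b ∈ Ψ (τ i) a → c ∈ Ψ (τ j) a → b = c := by
    intro a i j b c hb hc
    exact Part.mem_unique (hmono _ _ (hτ i (max i j) (le_max_left _ _)) _ _ hb)
      (hmono _ _ (hτ j (max i j) (le_max_right _ _)) _ _ hc)
  have hgood : ∀ a b, a ∈ (S []).dom → b ∈ (S []).dom → f a ∈ (S [((n, []) : Q)]).dom ∧
      (a ≠ b → f a ≠ f b) ∧ ((S []).adj a b ↔ (S [((n, []) : Q)]).adj (f a) (f b)) := by
    intro a b ha hb
    have h3 := hbad (max (e a) (e b))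
    have h4 := hmono _ _ (hτ _ _ (le_max_left (e a) (e b))) _ _ (hfe a ha)
    have h5 := hmono _ _ (hτ _ _ (le_max_right (e a) (e b))) _ _ (hfe b hb)
    have h6 : ¬ badB n a b (f a) (f b) = true := fun h7 => h3 ⟨(a, b, f a, f b), ⟨h4, h5⟩, h7⟩
    rw [badB_iff] at h6
    push Not at h6
    have h7 := h6 ⟨ha, hb⟩
    exact ⟨h7.1, h7.2.1, h7.2.2⟩
  refine ⟨f, ⟨?_, ?_, ?_⟩, ?_⟩
  · intro a ha
    exact (hgood a a ha ha).1
  · intro a ha b hb hab
    by_contra hne
    exact (hgood a b ha hb).2.1 hne hab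
  · intro y hy
    have h3 := (Ach_iff _ _ _).1 (hach (Nat.pair 1 y))
    simp only [Nat.unpair_pair] at h3
    rcases h3 with ⟨h3, _⟩ | ⟨_, h3 | ⟨a, ha, h3⟩⟩
    · exact absurd h3 (by simp)
    · exact absurd hy h3
    · exact ⟨a, ha, huniq (Nat.pair (idx n) a) (e a) (Nat.pair 1 y + 1) (f a) y (hfe a ha) h3⟩
  · intro a ha b hb
    exact (hgood a b ha hb).2.2

/-- existence of an element of a condition with a closed property, with a numerical witness -/
theorem sig_cond (p : Cond) {W : ℕ × ℕ × List ℕ → Prop} (hW : SD W) :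
    Sig (fun n : ℕ => ∃ c, ∃ z ∈ p.set, ∀ k, ¬ W (n, c, restr z k)) := by
  have c1 : Computable (fun x : ℕ × ℕ × List ℕ => x.2.2) := Computable.snd.comp Computable.snd
  have c2 : Computable (fun x : ℕ × ℕ × List ℕ => decide (p.s.length ≤ x.2.2.length)) :=
    le_comp (Computable.const _) (Computable.list_length.comp c1)
  have c3 : Computable (fun x : ℕ × ℕ × List ℕ => !(decide (x.2.2.take p.s.length = p.s))) :=
    not_comp (eq_comp (take_comp (Computable.const _) c1) (Computable.const _))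
  have h1 : SD (fun x : ℕ × ℕ × List ℕ => p.V x.2.2 ∨
      ((p.s.length ≤ x.2.2.length ∧ (!(decide (x.2.2.take p.s.length = p.s))) = true) ∨ W x)) :=
    (p.sd.comp c1).or (((SD.of_computablePred c2).and (SD.of_computable c3)).or hW)
  refine (Sig.ex_nat h1).of_iff ?_
  intro n
  constructor
  · rintro ⟨c, z, ⟨hz1, hz2⟩, hz3⟩
    refine ⟨c, z, ?_⟩
    rintro k (hk | ⟨hk1, hk2⟩ | hk)
    · exact hz1 k hk
    · simp only [restr_length] at hk1
      simp only [Bool.not_eq_true', decide_eq_false_iff_not] at hk2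
      rw [restr_take z hk1] at hk2
      exact hk2 hz2
    · exact hz3 k hk
  · rintro ⟨c, z, hz⟩
    refine ⟨c, z, ⟨fun k hk => hz k (Or.inl hk), ?_⟩, fun k hk => hz k (Or.inr (Or.inr hk))⟩
    by_contra hcon
    refine hz p.s.length (Or.inr (Or.inl ⟨by simp, ?_⟩))
    simp only [Bool.not_eq_true', decide_eq_false_iff_not]
    rw [restr_take z le_rfl]
    exact hcon

/-- the extension `τ` of `τ'.take k` agrees with `τ'` and meets requirement `j` -/
def Ext (Ψ : List ℕ → ℕ →. ℕ) (idx : ℕ → ℕ) (m n k j : ℕ) (τ' : List ℕ) : Prop :=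
  ∃ τ : List ℕ, ((decide (τ.length ≤ τ'.length) && decide (k ≤ τ.length)) &&
    (decide (τ.take k = τ'.take k) && agreeB m τ τ')) = true ∧ Ach Ψ idx n τ j

theorem Ext_sd (hΨ : Partrec₂ Ψ) (hidx : Computable idx) (m : ℕ) {α : Type*} [Primcodable α]
    {n k j : α → ℕ} {τ' : α → List ℕ} (hn : Computable n) (hk : Computable k) (hj : Computable j)
    (hτ' : Computable τ') : SD (fun a => Ext Ψ idx m (n a) (k a) (j a) (τ' a)) := by
  have t : Computable (fun x : α × List ℕ => x.2) := Computable.snd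
  have t' : Computable (fun x : α × List ℕ => τ' x.1) := hτ'.comp Computable.fst
  have k' : Computable (fun x : α × List ℕ => k x.1) := hk.comp Computable.fst
  have n' : Computable (fun x : α × List ℕ => n x.1) := hn.comp Computable.fst
  have j' : Computable (fun x : α × List ℕ => j x.1) := hj.comp Computable.fst
  have h := and_comp (and_comp (le_comp (Computable.list_length.comp t) (Computable.list_length.comp t'))
    (le_comp k' (Computable.list_length.comp t)))
    (and_comp (eq_comp (take_comp k' t) (take_comp k' t')) (comp_two (agreeB_comp m) t t'))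
  exact SD.ex ((SD.of_computable h).and ((Ach_sd hΨ hidx).comp (n'.pair (t.pair j'))))

theorem Ext_iff (m n k j : ℕ) (z : ℕ → ℕ) :
    (∀ k', ¬ Ext Ψ idx m n k j (restr z k')) ↔
      ∀ τ : List ℕ, k ≤ τ.length → τ.take k = restr z k → Agree m τ z → ¬ Ach Ψ idx n τ j := by
  constructor
  · intro h τ h1 h2 h3 h4
    refine h τ.length ⟨τ, ?_, h4⟩
    simp only [Bool.and_eq_true, decide_eq_true_eq, restr_length]
    refine ⟨⟨le_rfl, h1⟩, ?_, ?_⟩
    · rw [restr_take z h1]
      exact h2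
    · rw [agreeB_iff m τ z _ le_rfl]
      exact h3
  · rintro h k' ⟨τ, h1, h2⟩
    simp only [Bool.and_eq_true, decide_eq_true_eq, restr_length] at h1
    obtain ⟨⟨h3, h4⟩, h5, h6⟩ := h1
    rw [agreeB_iff m τ z _ h3] at h6
    rw [restr_take z (h4.trans h3)] at h5
    exact h τ h4 h5 h6 h2

/-- some computable structure isomorphic to `S []` forces the functional to fail -/
theorem exists_index_mem_X (hΨ : Partrec₂ Ψ) (hmono : Mono Ψ) (hidx : Computable idx) (p : Cond) :
    ∃ n, n ∈ X ∧ ((∃ z ∈ p.set, ∃ k, Bad Ψ idx n (restr z k)) ∨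
      ∃ z ∈ p.set, ∃ k, p.s.length ≤ k ∧ ∃ j, ∀ τ : List ℕ, k ≤ τ.length → τ.take k = restr z k →
        Agree p.m τ z → ¬ Ach Ψ idx n τ j) := by
  by_contra hcon
  push Not at hcon
  apply not_sig_compl_X
  obtain ⟨q, hq, hq'⟩ := Bad_sd hΨ hidx
  have d1 : Computable (fun x : ℕ × ℕ × List ℕ => x.1) := Computable.fst
  have dv : Computable (fun x : ℕ × ℕ × List ℕ => x.2) := Computable.snd
  have d2 : Computable (fun x : ℕ × ℕ × List ℕ => x.2.1) := Computable.fst.comp dv
  have d3 : Computable (fun x : ℕ × ℕ × List ℕ => x.2.2) := Computable.snd.comp dv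
  have e1 : Computable (fun x : ℕ × ℕ × List ℕ => x.2.1.unpair.1) :=
    Computable.fst.comp (Computable.unpair.comp d2)
  have e2 : Computable (fun x : ℕ × ℕ × List ℕ => x.2.1.unpair.2) :=
    Computable.snd.comp (Computable.unpair.comp d2)
  have s1 : Sig (fun n : ℕ => ∃ c : ℕ, ∃ z ∈ p.set, ∀ k, ¬ (decide (c.unpair.1 ≤ (restr z k).length) &&
      !(q (n, (restr z k).take c.unpair.1) c.unpair.2)) = true) := by
    refine sig_cond p (W := fun x => (decide (x.2.1.unpair.1 ≤ x.2.2.length) &&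
      !(q (x.1, x.2.2.take x.2.1.unpair.1) x.2.1.unpair.2)) = true) ?_
    apply SD.of_computable
    refine and_comp (le_comp e1 (Computable.list_length.comp d3)) (not_comp ?_)
    exact hq.comp (d1.pair (take_comp e1 d3)) e2
  have s2 : Sig (fun n : ℕ => ∃ c : ℕ, ∃ z ∈ p.set, ∀ k, ¬ (decide (c.unpair.1 < p.s.length) = true ∨
      Ext Ψ idx p.m n c.unpair.1 c.unpair.2 (restr z k))) := by
    refine sig_cond p (W := fun x => decide (x.2.1.unpair.1 < p.s.length) = true ∨
      Ext Ψ idx p.m x.1 x.2.1.unpair.1 x.2.1.unpair.2 x.2.2) ?_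
    exact (SD.of_computable (lt_comp e1 (Computable.const _))).or (Ext_sd hΨ hidx p.m d1 e1 e2 d3)
  refine (s1.or s2).of_iff ?_
  intro n
  constructor
  · intro hn
    by_contra hcon2
    push Not at hcon2
    obtain ⟨hc1, hc2⟩ := hcon2
    have hacc : Acc (Below qlt) [((n, []) : Q)] := by
      by_contra h3
      exact hn ((not_acc_root_iff n).1 h3)
    refine S_not_iso hacc (build (idx := idx) hmono p n ?_ ?_)
    · intro z hz k hk
      obtain ⟨t, ht⟩ := (hq' (n, restr z k)).1 hk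
      obtain ⟨k', hk'⟩ := hc1 (Nat.pair k t) z hz
      simp only [Nat.unpair_pair, Bool.and_eq_true, decide_eq_true_eq, restr_length,
        Bool.not_eq_true'] at hk'
      rw [restr_take z hk'.1, ht] at hk'
      exact absurd hk'.2 (by simp)
    · intro z hz k hk j
      by_contra hno
      obtain ⟨k', hk'⟩ := hc2 (Nat.pair k j) z hz
      simp only [Nat.unpair_pair, decide_eq_true_eq] at hk'
      rcases hk' with hk' | hk'
      · omega
      · refine (Ext_iff p.m n k j z).2 ?_ k' hk'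
        intro τ t1 t2 t3 t4
        exact hno ⟨τ, t1, t2, t3, t4⟩
  · rintro (⟨c, z, hz, hk⟩ | ⟨c, z, hz, hk⟩) hn
    · refine (hcon n hn).1 z hz c.unpair.1 ?_
      have h3 := hk c.unpair.1
      simp only [Bool.and_eq_true, decide_eq_true_eq, restr_length, Bool.not_eq_true', le_refl,
        true_and, Bool.not_eq_false, restr_take z (le_refl c.unpair.1)] at h3
      exact (hq' (n, restr z c.unpair.1)).2 ⟨_, h3⟩
    · have h3 : ¬ c.unpair.1 < p.s.length := by
        have := hk 0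
        intro h4
        exact this (Or.inl (by simpa using h4))
      obtain ⟨τ, t1, t2, t3, t4⟩ := (hcon n hn).2 z hz c.unpair.1 (by omega) c.unpair.2
      exact (Ext_iff p.m n c.unpair.1 c.unpair.2 z).1 (fun k' hk' => hk k' (Or.inr hk')) τ t1 t2 t3 t4

end

theorem stepB (Ψ : List ℕ → ℕ →. ℕ) (hΨ : Partrec₂ Ψ) (hmono : Mono Ψ) (p : Cond) :
    ∃ q : Cond, q.set ⊆ p.set ∧ ∀ D ∈ q.set, ∃ (e : ℕ) (B : Graph), IsIndex e B ∧
      (∃ f, IsIso (S []) B f) ∧ ¬ ∃ f, IsIso (S []) B f ∧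
        ∀ x ∈ (S []).dom, ∃ k, f x ∈ Ψ (restr D k) (Nat.pair e x) := by
  obtain ⟨idx, hidx, hidx'⟩ := exists_idx
  obtain ⟨n, hn, h⟩ := exists_index_mem_X hΨ hmono hidx p
  have hiso : ∃ f, IsIso (S []) (S [((n, []) : Q)]) f :=
    S_iso not_acc_nil ((not_acc_root_iff n).2 hn)
  rcases h with ⟨z, hz, k, hk⟩ | ⟨z, hz, k, hk, j, hj⟩
  · refine ⟨p.extend z hz (max k p.s.length) (le_max_right _ _), p.extend_subset z hz _ _, ?_⟩
    intro D hD
    refine ⟨idx n, S [((n, []) : Q)], hidx' n, hiso, ?_⟩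
    rintro ⟨f, hf, hf'⟩
    have hDk : restr D k = restr z k := by
      have h1 : restr D (max k p.s.length) = restr z (max k p.s.length) := by
        have := hD.2
        simpa [Cond.extend] using this
      rw [← restr_take D (le_max_left k p.s.length), h1, restr_take z (le_max_left _ _)]
    rw [← hDk] at hk
    obtain ⟨⟨x, y, a, b⟩, ⟨ha, hb⟩, hbad⟩ := hk
    simp only at ha hb hbad
    rw [badB_iff] at hbad
    obtain ⟨⟨hx, hy⟩, hbad⟩ := hbad
    have key : ∀ x a, x ∈ (S []).dom → a ∈ Ψ (restr D k) (Nat.pair (idx n) x) → a = f x := by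
      intro x a hx ha
      obtain ⟨k', hk'⟩ := hf' x hx
      exact Part.mem_unique (hmono _ _ (restr_prefix D (le_max_left k k')) _ _ ha)
        (hmono _ _ (restr_prefix D (le_max_right k k')) _ _ hk')
    rw [key x a hx ha, key y b hy hb] at hbad
    rcases hbad with h1 | ⟨h1, h2⟩ | h1
    · exact h1 (hf.1.mapsTo hx)
    · exact h1 (hf.1.injOn hx hy h2)
    · exact h1 (hf.2 x hx y hy)
  · have hz2 : restr z (restr z k).length = restr z k := by simp
    let q0 := p.extend z hz k hk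
    refine ⟨⟨fun τ => p.V τ ∨ Ext Ψ idx p.m n k j τ, restr z k, p.m, ?_, ?_, ?_⟩, ?_, ?_⟩
    · exact p.sd.or (Ext_sd hΨ hidx p.m (Computable.const n) (Computable.const k) (Computable.const j)
        Computable.id)
    · refine ⟨z, ?_, hz2⟩
      rintro k' (h1 | h1)
      · exact hz.1 k' h1
      · exact (Ext_iff p.m n k j z).2 hj k' h1
    · intro z1 z2 h1 h2 h3 h4
      have h5 : ∀ k', ¬ p.V (restr z2 k') := by
        exact q0.inv z1 z2 (fun k' hk' => h1 k' (Or.inl hk')) h2 h3 h4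
      have h6 : ∀ k', ¬ Ext Ψ idx p.m n k j (restr z2 k') := by
        rw [Ext_iff]
        have h7 : ∀ k', ¬ Ext Ψ idx p.m n k j (restr z1 k') := fun k' hk' => h1 k' (Or.inr hk')
        rw [Ext_iff] at h7
        rw [restr_length] at h2 h3
        intro τ t1 t2 t3
        refine h7 τ t1 (by rw [t2, h3, h2]) ?_
        intro r hr hr'
        rw [t3 r hr hr', h4 r hr']
      rintro k' (h8 | h8)
      · exact h5 k' h8
      · exact h6 k' h8
    · rintro D ⟨hD1, hD2⟩
      exact p.extend_subset z hz k hk ⟨fun k' hk' => hD1 k' (Or.inl hk'), hD2⟩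
    · rintro D ⟨hD1, hD2⟩
      simp only [restr_length] at hD1 hD2
      refine ⟨idx n, S [((n, []) : Q)], hidx' n, hiso, ?_⟩
      rintro ⟨f, hf, hf'⟩
      have hD3 : ∀ k', ¬ Ext Ψ idx p.m n k j (restr D k') := fun k' hk' => hD1 k' (Or.inr hk')
      rw [Ext_iff] at hD3
      have key : ∀ x ∈ (S []).dom, ∃ k', k ≤ k' ∧ f x ∈ Ψ (restr D k') (Nat.pair (idx n) x) := by
        intro x hx
        obtain ⟨k', hk'⟩ := hf' x hx
        exact ⟨max k k', le_max_left _ _, hmono _ _ (restr_prefix D (le_max_right k k')) _ _ hk'⟩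
      have key2 : ∀ k', k ≤ k' → ¬ Ach Ψ idx n (restr D k') j := by
        intro k' hk'
        refine hD3 _ (by simpa using hk') (restr_take D hk') ?_
        intro r hr _
        exact restr_getElem? D (by simpa using hr)
      have key3 := key2 k le_rfl
      rw [Ach_iff] at key3
      push Not at key3
      rcases Nat.eq_zero_or_pos j.unpair.1 with h0 | h0
      · obtain ⟨h1, _⟩ := key3.1 h0
        obtain ⟨k', hk', h2⟩ := key _ h1
        exact key2 k' hk' ((Ach_iff _ _ _).2 (Or.inl ⟨h0, Or.inr ⟨_, h2⟩⟩))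
      · obtain ⟨h1, _⟩ := key3.2 h0
        obtain ⟨x, hx, hx'⟩ := hf.1.surjOn h1
        obtain ⟨k', hk', h2⟩ := key x hx
        rw [hx'] at h2
        exact key2 k' hk' ((Ach_iff _ _ _).2 (Or.inr ⟨h0, Or.inr ⟨x, hx, h2⟩⟩))

end Pool.Agent.Lib.MP_dc84f7_lc
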